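import Mathlib

/-!
# Bootstrap percolation on the Hamming torus: definitions

These are the definitions used in the statements about problem MP_af82af_pr.
-/

open Finset

namespace Pool.Agent.HammingTorus

/-- The probability of the configuration whose set of open sites is `A`, when the sites of the
finite set `α` are open independently with probability `p`. -/
noncomputable def weight {α : Type*} [Fintype α] (p : ℝ) (A : Finset α) : ℝ :=
  p ^ A.card * (1 - p) ^ (Fintype.card α - A.card)

open scoped Classical in
/-- `prob p E` is the probability of the event `E` (a property of the set `A` of initially open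
sites) when the sites of the finite set `α` are open independently with probability `p`. -/
noncomputable def prob {α : Type*} [Fintype α] (p : ℝ) (E : Finset α → Prop) : ℝ :=
  ∑ A ∈ (univ : Finset (Finset α)).filter E, weight p A

/-- The vertices of the Hamming torus `H(n,d)`. -/
abbrev Site (n d : ℕ) : Type := Fin d → Fin n

/-- One step of bootstrap percolation with threshold `θ` on `H(n,d)`: a site is open after the
step if it was open before, or if at least `θ` of its neighbours (the sites differing from it in
exactly one coordinate) were open before. -/
def step {n d : ℕ} (θ : ℕ) (A : Finset (Site n d)) : Finset (Site n d) :=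
  univ.filter (fun v => v ∈ A ∨ θ ≤ (A.filter (fun w => hammingDist v w = 1)).card)

/-- `OpenAtEnd θ A v`: the site `v` is open in the final configuration of bootstrap percolation
with threshold `θ` started from the set `A` of open sites. -/
def OpenAtEnd {n d : ℕ} (θ : ℕ) (A : Finset (Site n d)) (v : Site n d) : Prop :=
  ∃ j : ℕ, v ∈ (step θ)^[j] A

/-- `OpensSubgraph θ i A`: started from the set `A` of open sites, some `i`-dimensional subgraph
(all sites agreeing with a site `a` outside a set `I` of `i` coordinates) is entirely open in the
final configuration. -/
def OpensSubgraph {n d : ℕ} (θ i : ℕ) (A : Finset (Site n d)) : Prop :=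
  ∃ (I : Finset (Fin d)) (a : Site n d), I.card = i ∧
    ∀ x : Site n d, (∀ k, k ∉ I → x k = a k) → OpenAtEnd θ A x

/-- `IsCriticalProb θ n d i p`: `p` is the threshold `p_c(i,d;θ,n)`, that is, `p` is a probability
at which the event that some `i`-dimensional subgraph becomes open has probability `1/2`. -/
def IsCriticalProb (θ n d i : ℕ) (p : ℝ) : Prop :=
  (0 ≤ p ∧ p ≤ 1) ∧ prob p (OpensSubgraph (n := n) (d := d) θ i) = 1 / 2

end Pool.Agent.HammingTorus
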