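import Mathlib
import Pool.Agent.Lib.MP_af82af_pr.Defs

/-!
# Product Bernoulli measures on finite sets: elementary facts
-/

open Finset

namespace Pool.Agent.HammingTorus

variable {α : Type*} [Fintype α]

open scoped Classical

lemma sum_superset_aux (r : ℝ) (A : Finset α) :
    ∑ C ∈ (univ : Finset (Finset α)).filter (fun C => A ⊆ C),
      r ^ (C.card - A.card) * (1 - r) ^ (Fintype.card α - C.card) = 1 := by
  have h1 : ∑ C ∈ (univ : Finset (Finset α)).filter (fun C => A ⊆ C),
      r ^ (C.card - A.card) * (1 - r) ^ (Fintype.card α - C.card)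
      = ∑ t ∈ (Aᶜ).powerset, r ^ t.card * (1 - r) ^ ((Aᶜ).card - t.card) := by
    refine Finset.sum_nbij' (fun C => C \ A) (fun t => A ∪ t) ?_ ?_ ?_ ?_ ?_
    · intro C hC
      simp only [mem_filter, mem_univ, true_and] at hC
      simp only [mem_powerset]
      intro x hx
      simp only [mem_sdiff] at hx
      simp [hx.2]
    · intro t ht
      simp
    · intro C hC
      simp only [mem_filter, mem_univ, true_and] at hC
      exact Finset.union_sdiff_of_subset hC
    · intro t ht
      simp only [mem_powerset] at ht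
      ext x
      simp only [mem_sdiff, mem_union]
      constructor
      · rintro ⟨h1 | h1, h2⟩
        · exact absurd h1 h2
        · exact h1
      · intro h
        have := ht h
        simp only [mem_compl] at this
        exact ⟨Or.inr h, this⟩
    · intro C hC
      simp only [mem_filter, mem_univ, true_and] at hC
      have hc1 : (C \ A).card = C.card - A.card := card_sdiff_of_subset hC
      have hc2 : (Aᶜ).card = Fintype.card α - A.card := card_compl A
      have hle : A.card ≤ C.card := card_le_card hC
      have hle2 : C.card ≤ Fintype.card α := card_le_univ C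
      rw [hc1, hc2]
      congr 2
      omega
  rw [h1, Finset.sum_pow_mul_eq_add_pow]
  simp

lemma sum_weight_superset (p : ℝ) (T : Finset α) :
    ∑ A ∈ (univ : Finset (Finset α)).filter (fun A => T ⊆ A), weight p A = p ^ T.card := by
  have h := sum_superset_aux p T
  have : ∀ A ∈ (univ : Finset (Finset α)).filter (fun A => T ⊆ A),
      weight p A = p ^ T.card * (p ^ (A.card - T.card) * (1 - p) ^ (Fintype.card α - A.card)) := by
    intro A hA
    simp only [mem_filter, mem_univ, true_and] at hA
    have hle : T.card ≤ A.card := card_le_card hA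
    unfold weight
    rw [← mul_assoc, ← pow_add]
    congr 2
    omega
  rw [Finset.sum_congr rfl this, ← Finset.mul_sum, h, mul_one]

lemma weight_nonneg {p : ℝ} (h0 : 0 ≤ p) (h1 : p ≤ 1) (A : Finset α) : 0 ≤ weight p A := by
  unfold weight
  have : 0 ≤ 1 - p := by linarith
  positivity

lemma sum_weight (p : ℝ) : ∑ A : Finset α, weight p A = 1 := by
  have := Fintype.sum_pow_mul_eq_add_pow α p (1 - p)
  unfold weight
  rw [this]
  simp

lemma prob_le_one {p : ℝ} (h0 : 0 ≤ p) (h1 : p ≤ 1) (E : Finset α → Prop) :
    prob p E ≤ 1 := by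
  rw [← sum_weight (α := α) p]
  unfold prob
  exact Finset.sum_le_sum_of_subset_of_nonneg (Finset.filter_subset _ _)
    (fun A _ _ => weight_nonneg h0 h1 A)

lemma prob_nonneg {p : ℝ} (h0 : 0 ≤ p) (h1 : p ≤ 1) (E : Finset α → Prop) :
    0 ≤ prob p E :=
  Finset.sum_nonneg (fun A _ => weight_nonneg h0 h1 A)

lemma prob_mono {p : ℝ} (h0 : 0 ≤ p) (h1 : p ≤ 1) (E F : Finset α → Prop)
    (h : ∀ A, E A → F A) : prob p E ≤ prob p F := by
  unfold prob
  refine Finset.sum_le_sum_of_subset_of_nonneg ?_ (fun A _ _ => weight_nonneg h0 h1 A)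
  intro A hA
  simp only [mem_filter, mem_univ, true_and] at hA ⊢
  exact h A hA

/-- union bound -/
lemma prob_union_bound {p : ℝ} (h0 : 0 ≤ p) (h1 : p ≤ 1) (E : Finset α → Prop)
    (𝒯 : Finset (Finset α)) (h : ∀ A, E A → ∃ T ∈ 𝒯, T ⊆ A) :
    prob p E ≤ ∑ T ∈ 𝒯, p ^ T.card := by
  have hb : ∀ A ∈ (univ : Finset (Finset α)).filter E,
      weight p A ≤ ∑ T ∈ 𝒯, (if T ⊆ A then weight p A else 0) := by
    intro A hA
    simp only [mem_filter, mem_univ, true_and] at hA
    obtain ⟨T, hT, hTA⟩ := h A hA
    have hnn : ∀ T ∈ 𝒯, (0:ℝ) ≤ (if T ⊆ A then weight p A else 0) := by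
      intro T _
      split_ifs
      · exact weight_nonneg h0 h1 A
      · exact le_refl 0
    have := Finset.single_le_sum hnn hT
    simpa [hTA] using this
  calc prob p E ≤ ∑ A ∈ (univ : Finset (Finset α)).filter E,
          ∑ T ∈ 𝒯, (if T ⊆ A then weight p A else 0) := Finset.sum_le_sum hb
    _ ≤ ∑ A : Finset α, ∑ T ∈ 𝒯, (if T ⊆ A then weight p A else 0) := by
        refine Finset.sum_le_sum_of_subset_of_nonneg (Finset.filter_subset _ _) ?_
        intro A _ _
        refine Finset.sum_nonneg (fun T _ => ?_)
        split_ifs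
        · exact weight_nonneg h0 h1 A
        · exact le_refl 0
    _ = ∑ T ∈ 𝒯, ∑ A : Finset α, (if T ⊆ A then weight p A else 0) := Finset.sum_comm
    _ = ∑ T ∈ 𝒯, p ^ T.card := by
        refine Finset.sum_congr rfl (fun T _ => ?_)
        rw [← sum_weight_superset p T, Finset.sum_filter]

/-- independence of the occurrence of disjoint sets -/
lemma sum_weight_prod {ι : Type*} (p : ℝ) (s : Finset ι) (T : ι → Finset α)
    (hd : (s : Set ι).PairwiseDisjoint T) :
    ∑ A : Finset α, weight p A * ∏ i ∈ s, (1 - (if T i ⊆ A then (1:ℝ) else 0))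
      = ∏ i ∈ s, (1 - p ^ (T i).card) := by
  have key : ∀ A : Finset α, ∏ i ∈ s, (1 - (if T i ⊆ A then (1:ℝ) else 0))
      = ∑ J ∈ s.powerset, (-1:ℝ) ^ J.card * (if J.biUnion T ⊆ A then (1:ℝ) else 0) := by
    intro A
    have h1 : ∏ i ∈ s, (1 - (if T i ⊆ A then (1:ℝ) else 0))
        = ∏ i ∈ s, ((-(if T i ⊆ A then (1:ℝ) else 0)) + 1) :=
      Finset.prod_congr rfl (fun i _ => by ring)
    rw [h1, Finset.prod_add]
    refine Finset.sum_congr rfl (fun J _ => ?_)
    rw [Finset.prod_const_one, mul_one]
    have h2 : ∏ i ∈ J, (-(if T i ⊆ A then (1:ℝ) else 0))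
        = ∏ i ∈ J, ((-1) * (if T i ⊆ A then (1:ℝ) else 0)) :=
      Finset.prod_congr rfl (fun i _ => by ring)
    rw [h2, Finset.prod_mul_distrib, Finset.prod_const]
    congr 1
    by_cases hJ : J.biUnion T ⊆ A
    · rw [if_pos hJ]
      refine Finset.prod_eq_one (fun i hi => ?_)
      rw [if_pos]
      exact (Finset.subset_biUnion_of_mem T hi).trans hJ
    · rw [if_neg hJ]
      rw [Finset.biUnion_subset] at hJ
      push Not at hJ
      obtain ⟨i, hi, hiA⟩ := hJ
      exact Finset.prod_eq_zero hi (by rw [if_neg hiA])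
  calc ∑ A : Finset α, weight p A * ∏ i ∈ s, (1 - (if T i ⊆ A then (1:ℝ) else 0))
      = ∑ A : Finset α, ∑ J ∈ s.powerset,
          (-1:ℝ) ^ J.card * (if J.biUnion T ⊆ A then weight p A else 0) := by
        refine Finset.sum_congr rfl (fun A _ => ?_)
        rw [key A, Finset.mul_sum]
        refine Finset.sum_congr rfl (fun J _ => ?_)
        split_ifs <;> ring
    _ = ∑ J ∈ s.powerset, (-1:ℝ) ^ J.card *
          ∑ A : Finset α, (if J.biUnion T ⊆ A then weight p A else 0) := by
        rw [Finset.sum_comm]
        refine Finset.sum_congr rfl (fun J _ => ?_)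
        rw [Finset.mul_sum]
    _ = ∑ J ∈ s.powerset, (∏ i ∈ J, (-(p ^ (T i).card))) * ∏ i ∈ s \ J, (1:ℝ) := by
        refine Finset.sum_congr rfl (fun J hJ => ?_)
        rw [mem_powerset] at hJ
        rw [← Finset.sum_filter, sum_weight_superset, Finset.card_biUnion]
        · rw [Finset.prod_const_one, mul_one, ← Finset.prod_pow_eq_pow_sum]
          have h2 : ∏ i ∈ J, (-(p ^ (T i).card)) = ∏ i ∈ J, ((-1) * p ^ (T i).card) :=
            Finset.prod_congr rfl (fun i _ => by ring)
          rw [h2, Finset.prod_mul_distrib, Finset.prod_const]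
        · intro x hx y hy hxy
          exact hd (hJ hx) (hJ hy) hxy
    _ = ∏ i ∈ s, (1 - p ^ (T i).card) := by
        rw [← Finset.prod_add]
        exact Finset.prod_congr rfl (fun i _ => by ring)

/-- if an event is implied by the occurrence of one of disjoint sets, its probability is large -/
lemma prob_lower_bound {ι : Type*} {p : ℝ} (h0 : 0 ≤ p) (h1 : p ≤ 1)
    (E : Finset α → Prop) (s : Finset ι) (T : ι → Finset α)
    (hd : (s : Set ι).PairwiseDisjoint T) (h : ∀ A, ∀ i ∈ s, T i ⊆ A → E A) :
    1 - ∏ i ∈ s, (1 - p ^ (T i).card) ≤ prob p E := by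
  have e1 : 1 - ∏ i ∈ s, (1 - p ^ (T i).card) = ∑ A : Finset α,
      (weight p A - weight p A * ∏ i ∈ s, (1 - (if T i ⊆ A then (1:ℝ) else 0))) := by
    rw [Finset.sum_sub_distrib, sum_weight_prod p s T hd, sum_weight]
  rw [e1]
  unfold prob
  rw [Finset.sum_filter]
  refine Finset.sum_le_sum (fun A _ => ?_)
  have hw := weight_nonneg h0 h1 A
  have hprod0 : 0 ≤ ∏ i ∈ s, (1 - (if T i ⊆ A then (1:ℝ) else 0)) := by
    refine Finset.prod_nonneg (fun i _ => ?_)
    split_ifs <;> norm_num
  by_cases hE : E A
  · rw [if_pos hE]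
    nlinarith
  · rw [if_neg hE]
    have : ∏ i ∈ s, (1 - (if T i ⊆ A then (1:ℝ) else 0)) = 1 := by
      refine Finset.prod_eq_one (fun i hi => ?_)
      rw [if_neg (fun hT => hE (h A i hi hT))]
      ring
    rw [this]
    linarith

/-- strict monotonicity of the probability of a nontrivial increasing event -/
lemma prob_strictMono {p q : ℝ} (h0 : 0 ≤ p) (hpq : p < q) (h1 : q ≤ 1)
    (E : Finset α → Prop) (hE : ∀ A C, A ⊆ C → E A → E C)
    (hempty : ¬ E ∅) (huniv : E univ) : prob p E < prob q E := by
  have hp1 : p < 1 := lt_of_lt_of_le hpq h1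
  set r : ℝ := (q - p) / (1 - p) with hr
  have h1p : 0 < 1 - p := by linarith
  have hr0 : 0 < r := div_pos (by linarith) h1p
  have hr1 : r ≤ 1 := by rw [hr, div_le_one h1p]; linarith
  have hr1' : 0 ≤ 1 - r := by linarith
  have hq : q = p + (1 - p) * r := by rw [hr]; field_simp; ring
  have hq' : 1 - q = (1 - r) * (1 - p) := by rw [hq]; ring
  -- kernel
  set k : Finset α → Finset α → ℝ := fun A C =>
    r ^ (C.card - A.card) * (1 - r) ^ (Fintype.card α - C.card) with hk
  have hk0 : ∀ A C, 0 ≤ k A C := fun A C => by rw [hk]; positivity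
  have hkey : ∀ C : Finset α, weight q C
      = ∑ A ∈ C.powerset, weight p A * k A C := by
    intro C
    have : ∀ A ∈ C.powerset, weight p A * k A C
        = ((1 - r) * (1 - p)) ^ (Fintype.card α - C.card) *
          (p ^ A.card * ((1 - p) * r) ^ (C.card - A.card)) := by
      intro A hA
      rw [mem_powerset] at hA
      have hle : A.card ≤ C.card := card_le_card hA
      have hle2 : C.card ≤ Fintype.card α := card_le_univ C
      have hsplit : Fintype.card α - A.card = (Fintype.card α - C.card) + (C.card - A.card) := by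
        omega
      unfold weight
      rw [hk]
      simp only
      rw [hsplit, pow_add, mul_pow, mul_pow]
      ring
    rw [Finset.sum_congr rfl this, ← Finset.mul_sum, Finset.sum_pow_mul_eq_add_pow, ← hq, ← hq']
    unfold weight
    ring
  have hqE : prob q E = ∑ A : Finset α, weight p A *
      ∑ C ∈ (univ : Finset (Finset α)).filter (fun C => A ⊆ C), (if E C then k A C else 0) := by
    unfold prob
    rw [Finset.sum_filter]
    calc ∑ C : Finset α, (if E C then weight q C else 0)
        = ∑ C : Finset α, ∑ A : Finset α, (if A ⊆ C then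
            weight p A * (if E C then k A C else 0) else 0) := by
          refine Finset.sum_congr rfl (fun C _ => ?_)
          have : (univ : Finset (Finset α)).filter (fun A => A ⊆ C) = C.powerset := by
            ext A; simp
          rw [← Finset.sum_filter, this]
          split_ifs with hC
          · exact hkey C
          · simp
      _ = ∑ A : Finset α, ∑ C : Finset α, (if A ⊆ C then
            weight p A * (if E C then k A C else 0) else 0) := Finset.sum_comm
      _ = _ := by
          refine Finset.sum_congr rfl (fun A _ => ?_)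
          rw [← Finset.sum_filter, Finset.mul_sum]
  have hpE : prob p E = ∑ A : Finset α, weight p A *
      ∑ C ∈ (univ : Finset (Finset α)).filter (fun C => A ⊆ C), (if E A then k A C else 0) := by
    unfold prob
    rw [Finset.sum_filter]
    refine Finset.sum_congr rfl (fun A _ => ?_)
    by_cases hA : E A
    · simp only [if_pos hA]
      rw [sum_superset_aux r A, mul_one]
    · simp [hA]
  rw [hqE, hpE]
  refine Finset.sum_lt_sum ?_ ⟨∅, mem_univ _, ?_⟩
  · intro A _
    refine mul_le_mul_of_nonneg_left ?_ (weight_nonneg h0 hp1.le A)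
    refine Finset.sum_le_sum (fun C hC => ?_)
    simp only [mem_filter, mem_univ, true_and] at hC
    by_cases hA : E A
    · rw [if_pos hA, if_pos (hE A C hC hA)]
    · rw [if_neg hA]
      split_ifs
      · exact hk0 A C
      · exact le_refl 0
  · have hw : 0 < weight p (∅ : Finset α) := by
      unfold weight
      simp only [card_empty, pow_zero, one_mul, Nat.sub_zero]
      positivity
    refine mul_lt_mul_of_pos_left ?_ hw
    refine Finset.sum_lt_sum ?_ ⟨univ, by simp, ?_⟩
    · intro C _
      rw [if_neg hempty]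
      split_ifs
      · exact hk0 _ C
      · exact le_refl 0
    · rw [if_neg hempty, if_pos huniv, hk]
      simp only [card_empty, Nat.sub_zero, card_univ, Nat.sub_self, pow_zero, mul_one]
      positivity

lemma existsUnique_half (E : Finset α → Prop)
    (hE : ∀ A C, A ⊆ C → E A → E C) (hempty : ¬ E ∅) (huniv : E univ) :
    ∃! p : ℝ, (0 ≤ p ∧ p ≤ 1) ∧ prob p E = 1 / 2 := by
  have hcont : Continuous (fun p : ℝ => prob p E) := by
    unfold prob weight
    fun_prop
  have hp0 : prob 0 E = 0 := by
    unfold prob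
    refine Finset.sum_eq_zero (fun A hA => ?_)
    simp only [mem_filter, mem_univ, true_and] at hA
    unfold weight
    have : A.card ≠ 0 := by
      intro h
      rw [card_eq_zero] at h
      rw [h] at hA
      exact hempty hA
    rw [zero_pow this]
    ring
  have hp1 : prob 1 E = 1 := by
    unfold prob
    rw [Finset.sum_eq_single_of_mem (univ : Finset α) (by simpa using huniv)]
    · unfold weight; simp
    · intro A _ hA
      unfold weight
      have hlt : A.card < Fintype.card α := by
        rw [← card_univ]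
        exact card_lt_card (Finset.ssubset_univ_iff.mpr hA)
      have : Fintype.card α - A.card ≠ 0 := by omega
      rw [sub_self, zero_pow this]
      ring
  obtain ⟨p, hp, hpe⟩ := intermediate_value_Icc (zero_le_one' ℝ) hcont.continuousOn
    (show (1/2:ℝ) ∈ Set.Icc (prob 0 E) (prob 1 E) by rw [hp0, hp1]; constructor <;> norm_num)
  refine ⟨p, ⟨⟨hp.1, hp.2⟩, hpe⟩, ?_⟩
  rintro q ⟨⟨hq0, hq1⟩, hqe⟩
  simp only at hpe
  rcases lt_trichotomy q p with h | h | h
  · have := prob_strictMono hq0 h hp.2 E hE hempty huniv
    rw [hpe, hqe] at this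
    exact absurd this (lt_irrefl _)
  · exact h
  · have := prob_strictMono hp.1 h hq1 E hE hempty huniv
    rw [hpe, hqe] at this
    exact absurd this (lt_irrefl _)

end Pool.Agent.HammingTorus
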