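import Mathlib
import Pool.Agent.Lib.MP_af82af_pr.Defs
import Pool.Agent.Lib.MP_af82af_pr.Prob

/-!
# Bootstrap percolation on the Hamming torus: basic deterministic facts
-/

open Finset

namespace Pool.Agent.HammingTorus

variable {n d : ℕ}

lemma mem_step {θ : ℕ} {A : Finset (Site n d)} {v : Site n d} :
    v ∈ step θ A ↔ v ∈ A ∨ θ ≤ (A.filter (fun w => hammingDist v w = 1)).card := by
  simp [step]

lemma subset_step (θ : ℕ) (A : Finset (Site n d)) : A ⊆ step θ A :=
  fun _ hv => mem_step.2 (Or.inl hv)

lemma step_mono (θ : ℕ) {A B : Finset (Site n d)} (h : A ⊆ B) : step θ A ⊆ step θ B := by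
  intro v hv
  rw [mem_step] at hv ⊢
  rcases hv with hv | hv
  · exact Or.inl (h hv)
  · exact Or.inr (hv.trans (card_le_card (filter_subset_filter _ h)))

lemma iterate_step_mono (θ : ℕ) {A B : Finset (Site n d)} (h : A ⊆ B) (j : ℕ) :
    (step θ)^[j] A ⊆ (step θ)^[j] B := by
  induction j with
  | zero => simpa using h
  | succ j ih =>
    rw [Function.iterate_succ_apply', Function.iterate_succ_apply']
    exact step_mono θ ih

lemma opensSubgraph_mono (θ i : ℕ) {A B : Finset (Site n d)} (h : A ⊆ B)
    (hA : OpensSubgraph θ i A) : OpensSubgraph θ i B := by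
  obtain ⟨I, a, hI, hx⟩ := hA
  refine ⟨I, a, hI, fun x hx' => ?_⟩
  obtain ⟨j, hj⟩ := hx x hx'
  exact ⟨j, iterate_step_mono θ h j hj⟩

lemma iterate_step_empty {θ : ℕ} (hθ : 1 ≤ θ) (j : ℕ) :
    (step θ)^[j] (∅ : Finset (Site n d)) = ∅ := by
  induction j with
  | zero => rfl
  | succ j ih =>
    rw [Function.iterate_succ_apply', ih]
    ext v
    rw [mem_step]
    simp
    omega

lemma not_opensSubgraph_empty {θ : ℕ} (hθ : 1 ≤ θ) (i : ℕ) :
    ¬ OpensSubgraph θ i (∅ : Finset (Site n d)) := by
  rintro ⟨I, a, _, hx⟩
  obtain ⟨j, hj⟩ := hx a (fun _ _ => rfl)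
  rw [iterate_step_empty hθ] at hj
  simp at hj

lemma opensSubgraph_univ (θ : ℕ) {i : ℕ} (hn : 1 ≤ n) (hi : i ≤ d) :
    OpensSubgraph θ i (univ : Finset (Site n d)) := by
  obtain ⟨I, _, hI⟩ := Finset.exists_subset_card_eq
    (s := (univ : Finset (Fin d))) (n := i) (by simpa using hi)
  exact ⟨I, fun _ => ⟨0, hn⟩, hI, fun x _ => ⟨0, by simp⟩⟩

theorem existsUnique_criticalProb (n d θ i : ℕ) (hn : 1 ≤ n) (hθ : 1 ≤ θ) (hi : i ≤ d) :
    ∃! p : ℝ, IsCriticalProb θ n d i p :=
  existsUnique_half _ (fun _ _ h hA => opensSubgraph_mono θ i h hA)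
    (not_opensSubgraph_empty hθ i) (opensSubgraph_univ θ hn hi)

/-- two updates of a site in the same coordinate are neighbours -/
lemma hammingDist_update (v : Site n d) (k : Fin d) {y z : Fin n} (h : y ≠ z) :
    hammingDist (Function.update v k y) (Function.update v k z) = 1 := by
  unfold hammingDist
  rw [Finset.card_eq_one]
  refine ⟨k, ?_⟩
  ext l
  simp only [mem_filter, mem_univ, true_and, mem_singleton]
  constructor
  · intro hl
    by_contra hlk
    rw [Function.update_of_ne hlk, Function.update_of_ne hlk] at hl
    exact hl rfl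
  · rintro rfl
    simpa using h

lemma hammingDist_update_self (v : Site n d) (k : Fin d) {y : Fin n} (h : v k ≠ y) :
    hammingDist v (Function.update v k y) = 1 := by
  have := hammingDist_update v k h
  simpa using this

/-- a line with `θ` open sites becomes open in one step -/
lemma fill_line {θ : ℕ} (B : Finset (Site n d)) (v : Site n d) (k : Fin d)
    (c : Fin θ → Fin n) (hc : Function.Injective c)
    (hB : ∀ i, Function.update v k (c i) ∈ B) (y : Fin n) :
    Function.update v k y ∈ step θ B := by
  rw [mem_step]
  by_cases hy : ∃ i, c i = y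
  · obtain ⟨i, rfl⟩ := hy
    exact Or.inl (hB i)
  · push Not at hy
    right
    have hinj : Function.Injective (fun i : Fin θ => Function.update v k (c i)) := by
      intro i j hij
      have := congrFun hij k
      simp only [Function.update_self] at this
      exact hc this
    calc θ = (univ : Finset (Fin θ)).card := by simp
      _ = ((univ : Finset (Fin θ)).image (fun i => Function.update v k (c i))).card :=
          (card_image_of_injective _ hinj).symm
      _ ≤ _ := by
          refine card_le_card ?_
          intro w hw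
          simp only [mem_image, mem_univ, true_and] at hw
          obtain ⟨i, rfl⟩ := hw
          simp only [mem_filter]
          exact ⟨hB i, hammingDist_update v k (Ne.symm (hy i))⟩

/-- a `θ × θ` grid of open sites opens its whole plane -/
lemma plane_of_grid {θ : ℕ} (A : Finset (Site n d)) (v : Site n d) (k l : Fin d) (hkl : k ≠ l)
    (c : Fin θ → Fin n) (hc : Function.Injective c)
    (hA : ∀ i j, Function.update (Function.update v k (c i)) l (c j) ∈ A) :
    OpensSubgraph θ 2 A := by
  refine ⟨{k, l}, v, Finset.card_pair hkl, fun x hx => ⟨2, ?_⟩⟩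
  have hx2 : x = Function.update (Function.update v k (x k)) l (x l) := by
    ext m
    by_cases hml : m = l
    · subst hml; simp
    · rw [Function.update_of_ne hml]
      by_cases hmk : m = k
      · subst hmk; simp
      · rw [Function.update_of_ne hmk]
        rw [hx m (by simp [hmk, hml])]
  have h1 : ∀ (y : Fin n) (j : Fin θ),
      Function.update (Function.update v k y) l (c j) ∈ step θ A := by
    intro y j
    rw [Function.update_comm hkl]
    refine fill_line A _ k c hc (fun i => ?_) y
    rw [Function.update_comm (Ne.symm hkl)]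
    exact hA i j
  have h2 : ∀ y z : Fin n, Function.update (Function.update v k y) l z ∈ step θ (step θ A) := by
    intro y z
    exact fill_line (step θ A) _ l c hc (fun j => h1 y j) z
  rw [hx2]
  exact h2 _ _

end Pool.Agent.HammingTorus
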