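import Mathlib
import Pool.Agent.Lib.MP_af82af_pr.Basic

/-!
# Growth of bootstrap percolation with threshold three on the Hamming torus
-/

open Finset

namespace Pool.Agent.HammingTorus

variable {n d : ℕ}

lemma iterate_step_le (θ : ℕ) (A : Finset (Site n d)) {j k : ℕ} (h : j ≤ k) :
    (step θ)^[j] A ⊆ (step θ)^[k] A := by
  induction k, h using Nat.le_induction with
  | base => exact Finset.Subset.refl _
  | succ k _ ih =>
    rw [Function.iterate_succ_apply']
    exact ih.trans (subset_step θ _)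

lemma openAtEnd_of_mem {θ : ℕ} {A : Finset (Site n d)} {v : Site n d} (h : v ∈ A) :
    OpenAtEnd θ A v := ⟨0, by simpa using h⟩

/-- a site with three distinct neighbours which are open at the end is open at the end -/
lemma openAtEnd_of_three {A : Finset (Site n d)} {v w₁ w₂ w₃ : Site n d}
    (h1 : OpenAtEnd 3 A w₁) (h2 : OpenAtEnd 3 A w₂) (h3 : OpenAtEnd 3 A w₃)
    (h12 : w₁ ≠ w₂) (h13 : w₁ ≠ w₃) (h23 : w₂ ≠ w₃)
    (d1 : hammingDist v w₁ = 1) (d2 : hammingDist v w₂ = 1) (d3 : hammingDist v w₃ = 1) :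
    OpenAtEnd 3 A v := by
  obtain ⟨j1, h1⟩ := h1
  obtain ⟨j2, h2⟩ := h2
  obtain ⟨j3, h3⟩ := h3
  refine ⟨max j1 (max j2 j3) + 1, ?_⟩
  rw [Function.iterate_succ_apply', mem_step]
  right
  have g1 := iterate_step_le 3 A (le_max_left j1 (max j2 j3)) h1
  have g2 := iterate_step_le 3 A (le_trans (le_max_left j2 j3) (le_max_right j1 (max j2 j3))) h2
  have g3 := iterate_step_le 3 A (le_trans (le_max_right j2 j3) (le_max_right j1 (max j2 j3))) h3
  have hc : ({w₁, w₂, w₃} : Finset (Site n d)).card = 3 := by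
    rw [Finset.card_eq_three]
    exact ⟨w₁, w₂, w₃, h12, h13, h23, rfl⟩
  refine le_trans (le_of_eq hc.symm) (card_le_card ?_)
  intro w hw
  simp only [mem_insert, mem_singleton] at hw
  rw [mem_filter]
  rcases hw with rfl | rfl | rfl
  · exact ⟨g1, d1⟩
  · exact ⟨g2, d2⟩
  · exact ⟨g3, d3⟩

/-- the site of the plane indexed by `b` with coordinates `r` and `c` -/
def pt (b : Fin (d - 2) → Fin n) (r c : Fin n) : Site n d :=
  fun k => if h : 2 ≤ k.val then b ⟨k.val - 2, by omega⟩ else if k.val = 0 then r else c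

lemma pt_two (b : Fin (d - 2) → Fin n) (r c : Fin n) (k : Fin (d - 2)) :
    pt (d := d) b r c ⟨k.val + 2, by omega⟩ = b k := by
  unfold pt
  simp

lemma pt_zero (hd : 2 ≤ d) (b : Fin (d - 2) → Fin n) (r c : Fin n) :
    pt (d := d) b r c ⟨0, by omega⟩ = r := by
  unfold pt
  simp

lemma pt_one (hd : 2 ≤ d) (b : Fin (d - 2) → Fin n) (r c : Fin n) :
    pt (d := d) b r c ⟨1, by omega⟩ = c := by
  unfold pt
  simp

lemma eq_pt (hd : 2 ≤ d) (v : Site n d) :
    v = pt (fun k => v ⟨k.val + 2, by omega⟩) (v ⟨0, by omega⟩) (v ⟨1, by omega⟩) := by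
  funext k
  unfold pt
  by_cases h : 2 ≤ k.val
  · rw [dif_pos h]
    congr 1
    ext
    simp
    omega
  · rw [dif_neg h]
    by_cases h0 : k.val = 0
    · rw [if_pos h0]
      congr 1
      ext
      simp [h0]
    · rw [if_neg h0]
      congr 1
      ext
      simp
      omega

lemma pt_inj (hd : 2 ≤ d) {b b' : Fin (d - 2) → Fin n} {r r' c c' : Fin n}
    (h : pt (d := d) b r c = pt b' r' c') : b = b' ∧ r = r' ∧ c = c' := by
  refine ⟨?_, ?_, ?_⟩
  · funext k
    rw [← pt_two b r c k, ← pt_two b' r' c' k, h]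
  · rw [← pt_zero hd b r c, ← pt_zero hd b' r' c', h]
  · rw [← pt_one hd b r c, ← pt_one hd b' r' c', h]

lemma pt_update_zero (hd : 2 ≤ d) (b : Fin (d - 2) → Fin n) (r r' c : Fin n) :
    Function.update (pt (d := d) b r c) ⟨0, by omega⟩ r' = pt b r' c := by
  funext k
  by_cases hk : k = ⟨0, by omega⟩
  · subst hk
    rw [Function.update_self, pt_zero hd]
  · rw [Function.update_of_ne hk]
    have hk0 : k.val ≠ 0 := fun h => hk (Fin.ext h)
    unfold pt
    simp [hk0]

lemma pt_update_one (hd : 2 ≤ d) (b : Fin (d - 2) → Fin n) (r c c' : Fin n) :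
    Function.update (pt (d := d) b r c) ⟨1, by omega⟩ c' = pt b r c' := by
  funext k
  by_cases hk : k = ⟨1, by omega⟩
  · subst hk
    rw [Function.update_self, pt_one hd]
  · rw [Function.update_of_ne hk]
    have hk1 : k.val ≠ 1 := fun h => hk (Fin.ext h)
    unfold pt
    by_cases h2 : 2 ≤ k.val
    · simp [h2]
    · have : k.val = 0 := by omega
      simp [this]

lemma pt_update_two (b : Fin (d - 2) → Fin n) (r c : Fin n) (k : Fin (d - 2)) (z : Fin n) :
    Function.update (pt (d := d) b r c) ⟨k.val + 2, by omega⟩ z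
      = pt (Function.update b k z) r c := by
  funext l
  by_cases hl : l = ⟨k.val + 2, by omega⟩
  · subst hl
    rw [Function.update_self, pt_two, Function.update_self]
  · rw [Function.update_of_ne hl]
    unfold pt
    by_cases h2 : 2 ≤ l.val
    · rw [dif_pos h2, dif_pos h2, Function.update_of_ne]
      intro h
      apply hl
      ext
      have := congrArg Fin.val h
      simp at this
      simp
      omega
    · rw [dif_neg h2, dif_neg h2]

lemma dist_row (hd : 2 ≤ d) (b : Fin (d - 2) → Fin n) {r r' : Fin n} (c : Fin n) (h : r ≠ r') :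
    hammingDist (pt (d := d) b r c) (pt b r' c) = 1 := by
  rw [← pt_update_zero hd b r r' c]
  apply hammingDist_update_self
  rw [pt_zero hd]
  exact h

lemma dist_col (hd : 2 ≤ d) (b : Fin (d - 2) → Fin n) (r : Fin n) {c c' : Fin n} (h : c ≠ c') :
    hammingDist (pt (d := d) b r c) (pt b r c') = 1 := by
  rw [← pt_update_one hd b r c c']
  apply hammingDist_update_self
  rw [pt_one hd]
  exact h

lemma dist_plane (b : Fin (d - 2) → Fin n) (r c : Fin n) (k : Fin (d - 2)) {z : Fin n}
    (h : b k ≠ z) :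
    hammingDist (pt (d := d) b r c) (pt (Function.update b k z) r c) = 1 := by
  rw [← pt_update_two b r c k z]
  apply hammingDist_update_self
  rw [pt_two]
  exact h

/-- the plane indexed by `b` is open at the end -/
def PlaneOpen (A : Finset (Site n d)) (b : Fin (d - 2) → Fin n) : Prop :=
  ∀ r c, OpenAtEnd 3 A (pt b r c)

/-- four open sites in a suitable position open a plane -/
lemma planeOpen_of_four (hd : 2 ≤ d) (A : Finset (Site n d)) (b : Fin (d - 2) → Fin n)
    {r₁ r₂ r₃ c₁ c₂ c₃ c₄ : Fin n} (h12 : r₁ ≠ r₂) (h13 : r₁ ≠ r₃) (h23 : r₂ ≠ r₃)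
    (k12 : c₁ ≠ c₂) (k13 : c₁ ≠ c₃) (k23 : c₂ ≠ c₃) (k34 : c₃ ≠ c₄)
    (a1 : pt b r₁ c₁ ∈ A) (a2 : pt b r₁ c₂ ∈ A) (a3 : pt b r₂ c₃ ∈ A) (a4 : pt b r₃ c₄ ∈ A) :
    PlaneOpen A b := by
  have o1 : OpenAtEnd 3 A (pt b r₁ c₁) := openAtEnd_of_mem a1
  have o2 : OpenAtEnd 3 A (pt b r₁ c₂) := openAtEnd_of_mem a2
  have o3 : OpenAtEnd 3 A (pt b r₂ c₃) := openAtEnd_of_mem a3
  have o4 : OpenAtEnd 3 A (pt b r₃ c₄) := openAtEnd_of_mem a4
  have ne : ∀ {r r' c c' : Fin n}, (r ≠ r' ∨ c ≠ c') → pt (d := d) b r c ≠ pt b r' c' := by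
    intro r r' c c' h heq
    obtain ⟨-, e1, e2⟩ := pt_inj hd heq
    rcases h with h | h
    · exact h e1
    · exact h e2
  have o5 : OpenAtEnd 3 A (pt b r₁ c₃) :=
    openAtEnd_of_three o1 o2 o3 (ne (Or.inr k12)) (ne (Or.inl h12)) (ne (Or.inl h12))
      (dist_col hd b r₁ k13.symm) (dist_col hd b r₁ k23.symm) (dist_row hd b c₃ h12)
  have row1 : ∀ c, OpenAtEnd 3 A (pt b r₁ c) := by
    intro c
    by_cases e1 : c = c₁
    · rw [e1]; exact o1
    by_cases e2 : c = c₂
    · rw [e2]; exact o2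
    by_cases e3 : c = c₃
    · rw [e3]; exact o5
    exact openAtEnd_of_three o1 o2 o5 (ne (Or.inr k12)) (ne (Or.inr k13)) (ne (Or.inr k23))
      (dist_col hd b r₁ e1) (dist_col hd b r₁ e2) (dist_col hd b r₁ e3)
  have o6 : OpenAtEnd 3 A (pt b r₂ c₄) :=
    openAtEnd_of_three o3 (row1 c₄) o4 (ne (Or.inl h12.symm)) (ne (Or.inl h23))
      (ne (Or.inl h13)) (dist_col hd b r₂ k34.symm) (dist_row hd b c₄ h12.symm)
      (dist_row hd b c₄ h23)
  have row2 : ∀ c, OpenAtEnd 3 A (pt b r₂ c) := by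
    intro c
    by_cases e3 : c = c₃
    · rw [e3]; exact o3
    by_cases e4 : c = c₄
    · rw [e4]; exact o6
    exact openAtEnd_of_three o3 o6 (row1 c) (ne (Or.inr k34)) (ne (Or.inl h12.symm))
      (ne (Or.inl h12.symm)) (dist_col hd b r₂ e3) (dist_col hd b r₂ e4)
      (dist_row hd b c h12.symm)
  have row3 : ∀ c, OpenAtEnd 3 A (pt b r₃ c) := by
    intro c
    by_cases e4 : c = c₄
    · rw [e4]; exact o4
    exact openAtEnd_of_three o4 (row1 c) (row2 c) (ne (Or.inl h13.symm)) (ne (Or.inl h23.symm))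
      (ne (Or.inl h12)) (dist_col hd b r₃ e4) (dist_row hd b c h13.symm)
      (dist_row hd b c h23.symm)
  intro r c
  by_cases e1 : r = r₁
  · rw [e1]; exact row1 c
  by_cases e2 : r = r₂
  · rw [e2]; exact row2 c
  by_cases e3 : r = r₃
  · rw [e3]; exact row3 c
  exact openAtEnd_of_three (row1 c) (row2 c) (row3 c) (ne (Or.inl h12)) (ne (Or.inl h13))
    (ne (Or.inl h23)) (dist_row hd b c e1) (dist_row hd b c e2) (dist_row hd b c e3)

/-- a plane next to an open plane opens if it contains two open sites in general position -/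
lemma planeOpen_of_two (hd : 2 ≤ d) (A : Finset (Site n d)) (b : Fin (d - 2) → Fin n)
    (k : Fin (d - 2)) (z : Fin n) (hz : b k ≠ z) (hopen : PlaneOpen A (Function.update b k z))
    {r₁ r₂ c₁ c₂ : Fin n} (h12 : r₁ ≠ r₂) (k12 : c₁ ≠ c₂)
    (a1 : pt b r₁ c₁ ∈ A) (a2 : pt b r₂ c₂ ∈ A) : PlaneOpen A b := by
  have o1 : OpenAtEnd 3 A (pt b r₁ c₁) := openAtEnd_of_mem a1
  have o2 : OpenAtEnd 3 A (pt b r₂ c₂) := openAtEnd_of_mem a2
  have ne : ∀ {r r' c c' : Fin n}, (r ≠ r' ∨ c ≠ c') → pt (d := d) b r c ≠ pt b r' c' := by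
    intro r r' c c' h heq
    obtain ⟨-, e1, e2⟩ := pt_inj hd heq
    rcases h with h | h
    · exact h e1
    · exact h e2
  have nb : ∀ {r r' c c' : Fin n}, pt (d := d) b r c ≠ pt (Function.update b k z) r' c' := by
    intro r r' c c' heq
    obtain ⟨e1, -, -⟩ := pt_inj hd heq
    apply hz
    have := congrFun e1 k
    rw [Function.update_self] at this
    exact this
  have o12 : OpenAtEnd 3 A (pt b r₁ c₂) :=
    openAtEnd_of_three o1 o2 (hopen r₁ c₂) (ne (Or.inl h12)) nb nb
      (dist_col hd b r₁ k12.symm) (dist_row hd b c₂ h12) (dist_plane b r₁ c₂ k hz)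
  have o21 : OpenAtEnd 3 A (pt b r₂ c₁) :=
    openAtEnd_of_three o1 o2 (hopen r₂ c₁) (ne (Or.inl h12)) nb nb
      (dist_row hd b c₁ h12.symm) (dist_col hd b r₂ k12) (dist_plane b r₂ c₁ k hz)
  have row1 : ∀ c, OpenAtEnd 3 A (pt b r₁ c) := by
    intro c
    by_cases e1 : c = c₁
    · rw [e1]; exact o1
    by_cases e2 : c = c₂
    · rw [e2]; exact o12
    exact openAtEnd_of_three o1 o12 (hopen r₁ c) (ne (Or.inr k12)) nb nb
      (dist_col hd b r₁ e1) (dist_col hd b r₁ e2) (dist_plane b r₁ c k hz)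
  have row2 : ∀ c, OpenAtEnd 3 A (pt b r₂ c) := by
    intro c
    by_cases e1 : c = c₁
    · rw [e1]; exact o21
    by_cases e2 : c = c₂
    · rw [e2]; exact o2
    exact openAtEnd_of_three o21 o2 (hopen r₂ c) (ne (Or.inr k12)) nb nb
      (dist_col hd b r₂ e1) (dist_col hd b r₂ e2) (dist_plane b r₂ c k hz)
  intro r c
  by_cases e1 : r = r₁
  · rw [e1]; exact row1 c
  by_cases e2 : r = r₂
  · rw [e2]; exact row2 c
  exact openAtEnd_of_three (row1 c) (row2 c) (hopen r c) (ne (Or.inl h12)) nb nb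
    (dist_row hd b c e1) (dist_row hd b c e2) (dist_plane b r c k hz)

/-- a plane next to three parallel open planes is open -/
lemma planeOpen_of_three (hd : 2 ≤ d) (A : Finset (Site n d)) (b : Fin (d - 2) → Fin n)
    (k : Fin (d - 2)) {z₁ z₂ z₃ : Fin n} (h12 : z₁ ≠ z₂) (h13 : z₁ ≠ z₃) (h23 : z₂ ≠ z₃)
    (g1 : b k ≠ z₁) (g2 : b k ≠ z₂) (g3 : b k ≠ z₃)
    (o1 : PlaneOpen A (Function.update b k z₁)) (o2 : PlaneOpen A (Function.update b k z₂))
    (o3 : PlaneOpen A (Function.update b k z₃)) : PlaneOpen A b := by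
  have ne : ∀ {r c z z' : Fin n}, z ≠ z' →
      pt (d := d) (Function.update b k z) r c ≠ pt (Function.update b k z') r c := by
    intro r c z z' h heq
    obtain ⟨e1, -, -⟩ := pt_inj hd heq
    apply h
    have := congrFun e1 k
    rw [Function.update_self, Function.update_self] at this
    exact this
  intro r c
  exact openAtEnd_of_three (o1 r c) (o2 r c) (o3 r c) (ne h12) (ne h13) (ne h23)
    (dist_plane b r c k g1) (dist_plane b r c k g2) (dist_plane b r c k g3)

/-- the plane indexed by `b` contains two initially open sites in general position -/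
def TwoSeeds (A : Finset (Site n d)) (b : Fin (d - 2) → Fin n) : Prop :=
  ∃ r₁ r₂ c₁ c₂ : Fin n, r₁ ≠ r₂ ∧ c₁ ≠ c₂ ∧ pt b r₁ c₁ ∈ A ∧ pt b r₂ c₂ ∈ A

/-- If one plane is open and every line of the index space contains three planes with two open
sites in general position, then everything is open. -/
theorem all_open (hd : 2 ≤ d) (A : Finset (Site n d)) (b₀ : Fin (d - 2) → Fin n)
    (h₀ : PlaneOpen A b₀)
    (hline : ∀ (b : Fin (d - 2) → Fin n) (k : Fin (d - 2)), ∃ z₁ z₂ z₃ : Fin n,
      z₁ ≠ z₂ ∧ z₁ ≠ z₃ ∧ z₂ ≠ z₃ ∧ TwoSeeds A (Function.update b k z₁) ∧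
      TwoSeeds A (Function.update b k z₂) ∧ TwoSeeds A (Function.update b k z₃)) :
    ∀ v : Site n d, OpenAtEnd 3 A v := by
  have hstep : ∀ b, PlaneOpen A b → ∀ (k : Fin (d - 2)) (z : Fin n),
      PlaneOpen A (Function.update b k z) := by
    intro b hb k z
    obtain ⟨z₁, z₂, z₃, h12, h13, h23, t1, t2, t3⟩ := hline b k
    have aux : ∀ w, TwoSeeds A (Function.update b k w) → PlaneOpen A (Function.update b k w) := by
      intro w hw
      by_cases hbw : w = b k
      · rw [hbw, Function.update_eq_self]; exact hb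
      · obtain ⟨r₁, r₂, c₁, c₂, hr, hc, a1, a2⟩ := hw
        refine planeOpen_of_two hd A (Function.update b k w) k (b k) (by simpa using hbw) ?_
          hr hc a1 a2
        rw [Function.update_idem, Function.update_eq_self]
        exact hb
    have o1 := aux z₁ t1
    have o2 := aux z₂ t2
    have o3 := aux z₃ t3
    by_cases e1 : z = z₁
    · rw [e1]; exact o1
    by_cases e2 : z = z₂
    · rw [e2]; exact o2
    by_cases e3 : z = z₃
    · rw [e3]; exact o3
    refine planeOpen_of_three hd A (Function.update b k z) k h12 h13 h23 (by simpa using e1)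
      (by simpa using e2) (by simpa using e3) ?_ ?_ ?_
    · rw [Function.update_idem]; exact o1
    · rw [Function.update_idem]; exact o2
    · rw [Function.update_idem]; exact o3
  have hall : ∀ b, PlaneOpen A b := by
    intro b
    have key : ∀ s : Finset (Fin (d - 2)),
        PlaneOpen A (fun k => if k ∈ s then b k else b₀ k) := by
      intro s
      induction s using Finset.induction_on with
      | empty => simpa using h₀
      | insert a s ha ih =>
        have := hstep _ ih a (b a)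
        have e : (fun k => if k ∈ insert a s then b k else b₀ k)
            = Function.update (fun k => if k ∈ s then b k else b₀ k) a (b a) := by
          funext k
          by_cases hk : k = a
          · subst hk; simp
          · rw [Function.update_of_ne hk]
            simp [hk]
        rw [e]
        exact this
    have := key univ
    simpa using this
  intro v
  rw [eq_pt hd v]
  exact hall _ _ _

end Pool.Agent.HammingTorus
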