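import Mathlib
import Pool.Agent.Lib.MP_af82af_pr.Defs
import Pool.Agent.Lib.MP_af82af_pr.Prob

/-!
# Independence of events depending on disjoint sets of sites
-/

open Finset

namespace Pool.Agent.HammingTorus

variable {α : Type*} [Fintype α]

/-- the event `E` depends only on the states of the sites of `U` -/
def DependsOn (E : Finset α → Prop) (U : Finset α) : Prop :=
  ∀ A C : Finset α, (∀ x ∈ U, x ∈ A ↔ x ∈ C) → (E A ↔ E C)

omit [Fintype α] in
lemma DependsOn.mono {E : Finset α → Prop} {U W : Finset α} (h : DependsOn E U) (hUW : U ⊆ W) :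
    DependsOn E W := fun A C hAC => h A C (fun x hx => hAC x (hUW hx))

omit [Fintype α] in
lemma DependsOn.not {E : Finset α → Prop} {U : Finset α} (h : DependsOn E U) :
    DependsOn (fun A => ¬ E A) U := fun A C hAC => not_congr (h A C hAC)

omit [Fintype α] in
lemma DependsOn.and {E F : Finset α → Prop} {U U' W : Finset α} (h : DependsOn E U)
    (h' : DependsOn F U') (hU : U ⊆ W) (hU' : U' ⊆ W) : DependsOn (fun A => E A ∧ F A) W :=
  fun A C hAC => and_congr ((h.mono hU) A C hAC) ((h'.mono hU') A C hAC)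

omit [Fintype α] in
lemma dependsOn_forall {ι : Type*} (s : Finset ι) (E : ι → Finset α → Prop)
    (W : Finset α) (h : ∀ i ∈ s, DependsOn (E i) W) :
    DependsOn (fun A => ∀ i ∈ s, E i A) W := by
  intro A C hAC
  exact forall₂_congr (fun i hi => h i hi A C hAC)

omit [Fintype α] in
lemma dependsOn_exists {ι : Type*} (s : Finset ι) (E : ι → Finset α → Prop)
    (W : Finset α) (h : ∀ i ∈ s, DependsOn (E i) W) :
    DependsOn (fun A => ∃ i ∈ s, E i A) W := by
  intro A C hAC
  refine exists_congr (fun i => ?_)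
  constructor
  · rintro ⟨hi, hA⟩
    exact ⟨hi, (h i hi A C hAC).1 hA⟩
  · rintro ⟨hi, hA⟩
    exact ⟨hi, (h i hi A C hAC).2 hA⟩

omit [Fintype α] in
lemma dependsOn_mem (x : α) : DependsOn (fun A : Finset α => x ∈ A) {x} := by
  intro A C hAC
  exact hAC x (mem_singleton_self x)

omit [Fintype α] in
open scoped Classical in
lemma DependsOn.inter {E : Finset α → Prop} {U : Finset α} (h : DependsOn E U) (A : Finset α) :
    E A ↔ E (A ∩ U) := by
  refine h A (A ∩ U) (fun x hx => ?_)
  rw [mem_inter]
  exact ⟨fun hA => ⟨hA, hx⟩, fun hA => hA.1⟩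

section

open scoped Classical

/-- the weight splits over a set of sites and its complement -/
lemma sum_weight_split (p : ℝ) (U : Finset α) (f g : Finset α → ℝ) :
    ∑ A : Finset α, weight p A * (f (A ∩ U) * g (A ∩ Uᶜ))
      = (∑ B ∈ U.powerset, p ^ B.card * (1 - p) ^ (U.card - B.card) * f B) *
        (∑ C ∈ (Uᶜ).powerset, p ^ C.card * (1 - p) ^ ((Uᶜ).card - C.card) * g C) := by
  rw [Finset.sum_mul_sum, ← Finset.sum_product']
  refine Finset.sum_nbij' (fun A => (A ∩ U, A ∩ Uᶜ)) (fun q => q.1 ∪ q.2) ?_ ?_ ?_ ?_ ?_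
  · intro A _
    simp
  · intro q _
    simp
  · intro A _
    simp only
    rw [← Finset.inter_union_distrib_left]
    simp
  · rintro ⟨B, C⟩ hq
    rw [mem_product, mem_powerset, mem_powerset] at hq
    simp only at hq
    have hBC : Disjoint C U := by
      rw [Finset.disjoint_left]
      intro x hx hxU
      have := hq.2 hx
      rw [mem_compl] at this
      exact this hxU
    have hBC' : Disjoint B Uᶜ := by
      rw [Finset.disjoint_left]
      intro x hx hxU
      rw [mem_compl] at hxU
      exact hxU (hq.1 hx)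
    simp only [Prod.mk.injEq]
    constructor
    · rw [Finset.union_inter_distrib_right, inter_eq_left.2 hq.1,
        Finset.disjoint_iff_inter_eq_empty.1 hBC, union_empty]
    · rw [Finset.union_inter_distrib_right, inter_eq_left.2 hq.2,
        Finset.disjoint_iff_inter_eq_empty.1 hBC', empty_union]
  · intro A _
    simp only
    have h1 : A.card = (A ∩ U).card + (A ∩ Uᶜ).card := by
      rw [← card_union_of_disjoint, ← Finset.inter_union_distrib_left]
      · simp
      · rw [Finset.disjoint_left]
        intro x hx hx'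
        simp only [mem_inter, mem_compl] at hx hx'
        exact hx'.2 hx.2
    have h2 : (A ∩ U).card ≤ U.card := card_le_card inter_subset_right
    have h3 : (A ∩ Uᶜ).card ≤ (Uᶜ).card := card_le_card inter_subset_right
    have h4 : (Uᶜ).card = Fintype.card α - U.card := card_compl U
    have h5 : U.card ≤ Fintype.card α := card_le_univ U
    have h6 : Fintype.card α - A.card = (U.card - (A ∩ U).card) + ((Uᶜ).card - (A ∩ Uᶜ).card) := by
      omega
    unfold weight
    rw [h6, h1, pow_add, pow_add]
    ring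

omit [Fintype α] in
lemma sum_powerset_weight (p : ℝ) (U : Finset α) :
    ∑ B ∈ U.powerset, p ^ B.card * (1 - p) ^ (U.card - B.card) = 1 := by
  rw [Finset.sum_pow_mul_eq_add_pow]
  simp

lemma prob_eq_sum (p : ℝ) (E : Finset α → Prop) :
    prob p E = ∑ A : Finset α, weight p A * (if E A then 1 else 0) := by
  unfold prob
  rw [Finset.sum_filter]
  refine Finset.sum_congr rfl (fun A _ => ?_)
  split_ifs <;> simp

/-- independence of two events depending on disjoint sets of sites -/
lemma prob_and {E F : Finset α → Prop} {U W : Finset α} (p : ℝ) (hE : DependsOn E U)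
    (hF : DependsOn F W) (hUW : Disjoint U W) :
    prob p (fun A => E A ∧ F A) = prob p E * prob p F := by
  have hF' : DependsOn F Uᶜ := by
    refine hF.mono ?_
    intro x hx
    rw [mem_compl]
    intro hxU
    exact Finset.disjoint_left.1 hUW hxU hx
  have e1 : prob p (fun A => E A ∧ F A) = ∑ A : Finset α, weight p A *
      ((if E (A ∩ U) then (1:ℝ) else 0) * (if F (A ∩ Uᶜ) then (1:ℝ) else 0)) := by
    rw [prob_eq_sum]
    refine Finset.sum_congr rfl (fun A _ => ?_)
    congr 1
    by_cases h1 : E A <;> by_cases h2 : F A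
    · rw [if_pos ⟨h1, h2⟩, if_pos ((hE.inter A).1 h1), if_pos ((hF'.inter A).1 h2)]; ring
    · rw [if_neg (fun h => h2 h.2), if_neg (fun h => h2 ((hF'.inter A).2 h))]; ring
    · rw [if_neg (fun h => h1 h.1), if_neg (fun h => h1 ((hE.inter A).2 h))]; ring
    · rw [if_neg (fun h => h1 h.1), if_neg (fun h => h1 ((hE.inter A).2 h))]; ring
  have e2 : prob p E = ∑ A : Finset α, weight p A *
      ((if E (A ∩ U) then (1:ℝ) else 0) * (fun _ => (1:ℝ)) (A ∩ Uᶜ)) := by
    rw [prob_eq_sum]
    refine Finset.sum_congr rfl (fun A _ => ?_)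
    congr 1
    by_cases h1 : E A
    · rw [if_pos h1, if_pos ((hE.inter A).1 h1)]; simp
    · rw [if_neg h1, if_neg (fun h => h1 ((hE.inter A).2 h))]; simp
  have e3 : prob p F = ∑ A : Finset α, weight p A *
      ((fun _ => (1:ℝ)) (A ∩ U) * (if F (A ∩ Uᶜ) then (1:ℝ) else 0)) := by
    rw [prob_eq_sum]
    refine Finset.sum_congr rfl (fun A _ => ?_)
    congr 1
    by_cases h1 : F A
    · rw [if_pos h1, if_pos ((hF'.inter A).1 h1)]; simp
    · rw [if_neg h1, if_neg (fun h => h1 ((hF'.inter A).2 h))]; simp
  rw [e1, e2, e3,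
    sum_weight_split p U (fun B => if E B then (1:ℝ) else 0) (fun C => if F C then (1:ℝ) else 0),
    sum_weight_split p U (fun B => if E B then (1:ℝ) else 0) (fun _ => (1:ℝ)),
    sum_weight_split p U (fun _ => (1:ℝ)) (fun C => if F C then (1:ℝ) else 0)]
  simp only [mul_one]
  rw [sum_powerset_weight, sum_powerset_weight]
  ring

lemma prob_true (p : ℝ) : prob p (fun _ : Finset α => True) = 1 := by
  unfold prob
  rw [Finset.filter_true]
  exact sum_weight p

lemma prob_not (p : ℝ) (E : Finset α → Prop) : prob p (fun A => ¬ E A) = 1 - prob p E := by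
  rw [eq_sub_iff_add_eq, prob_eq_sum, prob_eq_sum, ← Finset.sum_add_distrib]
  refine Eq.trans ?_ (sum_weight (α := α) p)
  refine Finset.sum_congr rfl (fun A _ => ?_)
  by_cases h : E A <;> simp [h]

/-- independence of a finite family of events depending on disjoint sets of sites -/
lemma prob_forall_not {ι : Type*} (p : ℝ) (s : Finset ι) (E : ι → Finset α → Prop)
    (U : ι → Finset α) (hE : ∀ i ∈ s, DependsOn (E i) (U i))
    (hd : (s : Set ι).PairwiseDisjoint U) :
    prob p (fun A => ∀ i ∈ s, ¬ E i A) = ∏ i ∈ s, (1 - prob p (E i)) := by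
  induction s using Finset.induction_on with
  | empty => simpa using prob_true p
  | insert a s ha ih =>
    have hsub : (s : Set ι) ⊆ ((insert a s : Finset ι) : Set ι) := by simp
    have h1 : (fun A => ∀ i ∈ insert a s, ¬ E i A)
        = (fun A => (¬ E a A) ∧ (∀ i ∈ s, ¬ E i A)) := by
      funext A
      rw [Finset.forall_mem_insert]
    rw [h1, prob_and p ((hE a (mem_insert_self a s)).not)
      (dependsOn_forall s (fun i A => ¬ E i A) (s.biUnion U)
        (fun i hi => ((hE i (mem_insert_of_mem hi)).not).mono (subset_biUnion_of_mem U hi))),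
      prob_not, ih (fun i hi => hE i (mem_insert_of_mem hi)) (hd.subset hsub),
      Finset.prod_insert ha]
    rw [Finset.disjoint_biUnion_right]
    intro i hi
    exact hd (by simp) (by simp [hi]) (by rintro rfl; exact ha hi)

lemma prob_exists {ι : Type*} (p : ℝ) (s : Finset ι) (E : ι → Finset α → Prop)
    (U : ι → Finset α) (hE : ∀ i ∈ s, DependsOn (E i) (U i))
    (hd : (s : Set ι).PairwiseDisjoint U) :
    prob p (fun A => ∃ i ∈ s, E i A) = 1 - ∏ i ∈ s, (1 - prob p (E i)) := by
  rw [← prob_forall_not p s E U hE hd, ← prob_not]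
  congr 1
  funext A
  simp

lemma prob_superset (p : ℝ) (T : Finset α) : prob p (fun A : Finset α => T ⊆ A) = p ^ T.card := by
  rw [← sum_weight_superset p T]
  unfold prob
  exact Finset.sum_congr (by ext A; simp) (fun _ _ => rfl)

lemma prob_mem (p : ℝ) (x : α) : prob p (fun A : Finset α => x ∈ A) = p := by
  have h := prob_superset p ({x} : Finset α)
  have e : (fun A : Finset α => ({x} : Finset α) ⊆ A) = (fun A => x ∈ A) := by
    funext A
    simp
  rw [e, card_singleton, pow_one] at h
  exact h

/-- probability that some site of `R` is open -/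
lemma prob_meets (p : ℝ) (R : Finset α) :
    prob p (fun A : Finset α => ∃ x ∈ R, x ∈ A) = 1 - (1 - p) ^ R.card := by
  rw [prob_exists p R (fun x A => x ∈ A) (fun x => {x}) (fun x _ => dependsOn_mem x)]
  · rw [Finset.prod_congr rfl (fun x _ => by rw [prob_mem p x]), Finset.prod_const]
  · intro x _ y _ hxy
    simpa using hxy

end

/-- elementary inequality: `1-(1-q)^N ≥ qN/2` when `qN ≤ 1` -/
lemma one_sub_pow_ge {q : ℝ} (h0 : 0 ≤ q) (h1 : q ≤ 1) (N : ℕ) (hN : q * N ≤ 1) :
    q * N / 2 ≤ 1 - (1 - q) ^ N := by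
  have hq : 0 ≤ 1 - q := by linarith
  have hb : 1 + (N:ℝ) * q ≤ (1 + q) ^ N := one_add_mul_le_pow (by linarith) N
  have hprod : (1 + (N:ℝ) * q) * (1 - q) ^ N ≤ 1 := by
    calc (1 + (N:ℝ) * q) * (1 - q) ^ N ≤ (1 + q) ^ N * (1 - q) ^ N := by
          gcongr
      _ = (1 - q ^ 2) ^ N := by rw [← mul_pow]; ring
      _ ≤ 1 := by
          apply pow_le_one₀
          · nlinarith
          · nlinarith
  have hNq : 0 ≤ (N:ℝ) * q := by positivity
  have hpn : 0 ≤ (1 - q) ^ N := by positivity
  nlinarith

lemma one_sub_pow_le_exp {q : ℝ} (h1 : q ≤ 1) (N : ℕ) :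
    (1 - q) ^ N ≤ Real.exp (-(q * N)) := by
  calc (1 - q) ^ N ≤ (Real.exp (-q)) ^ N := by
        apply pow_le_pow_left₀ (by linarith)
        have := Real.add_one_le_exp (-q)
        linarith
    _ = Real.exp (-(q * N)) := by
        rw [← Real.exp_nat_mul]
        congr 1
        ring

end Pool.Agent.HammingTorus
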