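import Mathlib
import Pool.Agent.Lib.MP_af82af_pr.Growth

/-!
# Threshold three: a deterministic obstruction to the opening of a plane
-/

open Finset

namespace Pool.Agent.HammingTorus

variable {n d : ℕ}

open scoped Classical

/-- `Conn s X`: the set `X` is obtained from a site by `s - 1` times adding a site at distance at
most one from an already present site. -/
inductive Conn : ℕ → Finset (Site n d) → Prop
  | base (v : Site n d) : Conn 1 {v}
  | step {s : ℕ} {X : Finset (Site n d)} {w u : Site n d} (h : Conn s X) (hw : w ∈ X)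
      (hu : hammingDist w u ≤ 1) : Conn (s + 1) (insert u X)

/-- no small connected set contains many open sites -/
def Sparse (A : Finset (Site n d)) : Prop :=
  ∀ s : ℕ, ∀ X : Finset (Site n d), s ≤ 16 → Conn s X → (d + 5) * (X ∩ A).card < 4 * (s + d - 1)

lemma Conn.add {s : ℕ} {X : Finset (Site n d)} (h : Conn s X) {w : Site n d} (hw : w ∈ X)
    (T : Finset (Site n d)) (hT : ∀ t ∈ T, hammingDist w t ≤ 1) :
    Conn (s + T.card) (T ∪ X) := by
  induction T using Finset.induction_on with
  | empty => simpa using h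
  | insert a T ha ih =>
    rw [card_insert_of_notMem ha, insert_union, ← add_assoc]
    exact Conn.step (ih (fun t ht => hT t (mem_insert_of_mem ht))) (mem_union_right _ hw)
      (hT a (mem_insert_self a T))

lemma Conn.path {m : ℕ} : ∀ {s : ℕ} {X : Finset (Site n d)}, Conn s X →
    ∀ {w u : Site n d}, w ∈ X → hammingDist w u = m →
    ∃ Y, Conn (s + m) Y ∧ X ⊆ Y ∧ u ∈ Y := by
  induction m with
  | zero =>
    intro s X h w u hw hd
    rw [hammingDist_eq_zero] at hd
    exact ⟨X, h, Finset.Subset.refl _, hd ▸ hw⟩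
  | succ m ih =>
    intro s X h w u hw hd
    have hne : ∃ k, w k ≠ u k := by
      by_contra hcon
      push Not at hcon
      have : w = u := funext hcon
      rw [this, hammingDist_self] at hd
      omega
    obtain ⟨k, hk⟩ := hne
    have hd1 : hammingDist w (Function.update w k (u k)) = 1 := hammingDist_update_self w k hk
    have hd2 : hammingDist (Function.update w k (u k)) u = m := by
      unfold hammingDist at hd ⊢
      have e : (univ.filter (fun i => w i ≠ u i))
          = insert k (univ.filter (fun i => Function.update w k (u k) i ≠ u i)) := by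
        ext l
        simp only [mem_filter, mem_univ, true_and, mem_insert]
        by_cases hl : l = k
        · subst hl; simp [hk]
        · rw [Function.update_of_ne hl]
          simp [hl]
      rw [e, card_insert_of_notMem (by simp)] at hd
      omega
    obtain ⟨Y, hY, hXY, huY⟩ := ih (Conn.step h hw hd1.le) (mem_insert_self _ _) hd2
    refine ⟨Y, ?_, (subset_insert _ _).trans hXY, huY⟩
    have : s + (m + 1) = s + 1 + m := by omega
    rw [this]
    exact hY

/-- the line through `v` in direction `k` -/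
def OnLine (v : Site n d) (k : Fin d) (x : Site n d) : Prop := ∀ l, l ≠ k → x l = v l

lemma exists_of_dist_one {u v : Site n d} (h : hammingDist u v = 1) :
    ∃ k, u k ≠ v k ∧ ∀ l, l ≠ k → u l = v l := by
  unfold hammingDist at h
  rw [card_eq_one] at h
  obtain ⟨k, hk⟩ := h
  refine ⟨k, ?_, ?_⟩
  · have : k ∈ univ.filter (fun i => u i ≠ v i) := by rw [hk]; simp
    simpa using this
  · intro l hl
    by_contra hne
    have : l ∈ univ.filter (fun i => u i ≠ v i) := by simpa using hne
    rw [hk] at this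
    exact hl (by simpa using this)

lemma two_on_line {v : Site n d} {k : Fin d} {y₁ y₂ u : Site n d} (h1 : OnLine v k y₁)
    (h2 : OnLine v k y₂) (hne : y₁ ≠ y₂) (d1 : hammingDist u y₁ = 1)
    (d2 : hammingDist u y₂ = 1) : OnLine v k u := by
  intro l hl
  by_contra hul
  obtain ⟨k1, g1, f1⟩ := exists_of_dist_one d1
  obtain ⟨k2, g2, f2⟩ := exists_of_dist_one d2
  have e1 : l = k1 := by
    by_contra h
    exact hul (by rw [f1 l h, h1 l hl])
  have e2 : l = k2 := by
    by_contra h
    exact hul (by rw [f2 l h, h2 l hl])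
  subst e1
  subst e2
  apply hne
  funext m
  by_cases hm : m = l
  · subst hm
    rw [h1 m hl, h2 m hl]
  · rw [← f1 m hm, ← f2 m hm]

/-- common neighbours of two adjacent sites lie on their line -/
lemma common_of_adjacent {u v : Site n d} (h : hammingDist u v = 1) :
    ∃ k, OnLine v k u ∧ ∀ w, hammingDist u w = 1 → hammingDist v w = 1 → OnLine v k w := by
  obtain ⟨k, hk, hl⟩ := exists_of_dist_one h
  refine ⟨k, hl, ?_⟩
  intro w huw hvw l hlk
  obtain ⟨k1, g1, f1⟩ := exists_of_dist_one huw
  obtain ⟨k2, g2, f2⟩ := exists_of_dist_one hvw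
  by_contra hne
  have e1 : l = k1 := by
    by_contra h'
    exact hne (by rw [← f1 l h', hl l hlk])
  have e2 : l = k2 := by
    by_contra h'
    exact hne (by rw [← f2 l h'])
  have : u k = v k := by
    rw [f1 k (by rw [← e1]; exact hlk.symm), f2 k (by rw [← e2]; exact hlk.symm)]
  exact hk this

/-- three distinct common neighbours of two distinct sites lie on one line through both -/
lemma three_common {u v w₁ w₂ w₃ : Site n d} (huv : u ≠ v) (h12 : w₁ ≠ w₂) (h13 : w₁ ≠ w₃)
    (h23 : w₂ ≠ w₃) (u1 : hammingDist u w₁ = 1) (u2 : hammingDist u w₂ = 1)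
    (u3 : hammingDist u w₃ = 1) (v1 : hammingDist v w₁ = 1) (v2 : hammingDist v w₂ = 1)
    (v3 : hammingDist v w₃ = 1) :
    ∃ k, OnLine v k u ∧ OnLine v k w₁ ∧ OnLine v k w₂ ∧ OnLine v k w₃ := by
  by_cases hadj : hammingDist u v = 1
  · obtain ⟨k, hk, hw⟩ := common_of_adjacent hadj
    exact ⟨k, hk, hw _ u1 v1, hw _ u2 v2, hw _ u3 v3⟩
  · -- the two sites differ in exactly two coordinates
    exfalso
    -- every common neighbour `w` satisfies: it differs from `v` in one coordinate `k`, where it
    -- agrees with `u`, and `u` differs from `v` there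
    have key : ∀ w, hammingDist u w = 1 → hammingDist v w = 1 →
        ∃ k, u k ≠ v k ∧ w = Function.update v k (u k) := by
      intro w huw hvw
      obtain ⟨k1, g1, f1⟩ := exists_of_dist_one huw
      obtain ⟨k2, g2, f2⟩ := exists_of_dist_one hvw
      have hk12 : k1 ≠ k2 := by
        rintro rfl
        apply hadj
        have hne : u k1 ≠ v k1 := by
          intro he
          apply huv
          funext l
          by_cases hl : l = k1
          · rw [hl, he]
          · rw [f1 l hl, f2 l hl]
        unfold hammingDist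
        rw [card_eq_one]
        refine ⟨k1, ?_⟩
        ext l
        simp only [mem_filter, mem_univ, true_and, mem_singleton]
        constructor
        · intro h
          by_contra hl
          exact h (by rw [f1 l hl, f2 l hl])
        · rintro rfl
          exact hne
      refine ⟨k2, ?_, ?_⟩
      · rw [f1 k2 hk12.symm]
        exact g2.symm
      · funext l
        by_cases hl : l = k2
        · subst hl
          rw [Function.update_self, f1 l hk12.symm]
        · rw [Function.update_of_ne hl, f2 l hl]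
    obtain ⟨a, ha, ea⟩ := key w₁ u1 v1
    obtain ⟨b, hb, eb⟩ := key w₂ u2 v2
    obtain ⟨c, hc, ec⟩ := key w₃ u3 v3
    have hab : a ≠ b := by rintro rfl; exact h12 (by rw [ea, eb])
    have hac : a ≠ c := by rintro rfl; exact h13 (by rw [ea, ec])
    have hbc : b ≠ c := by rintro rfl; exact h23 (by rw [eb, ec])
    obtain ⟨k1, g1, f1⟩ := exists_of_dist_one u1
    -- `u` and `w₁` differ in both `b` and `c`
    have hwb : w₁ b = v b := by rw [ea, Function.update_of_ne hab.symm]
    have hwc : w₁ c = v c := by rw [ea, Function.update_of_ne hac.symm]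
    have e1 : b = k1 := by
      by_contra h
      exact hb (by rw [f1 b h, hwb])
    have e2 : c = k1 := by
      by_contra h
      exact hc (by rw [f1 c h, hwc])
    exact hbc (by rw [e1, e2])

/-- the initially open neighbours of a site -/
def nb (A : Finset (Site n d)) (v : Site n d) : Finset (Site n d) :=
  A.filter (fun w => hammingDist v w = 1)

lemma mem_nb {A : Finset (Site n d)} {v w : Site n d} :
    w ∈ nb A v ↔ w ∈ A ∧ hammingDist v w = 1 := by
  simp [nb]

/-- a site is hot if it has at least three initially open neighbours -/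
def Hot (A : Finset (Site n d)) (v : Site n d) : Prop := 3 ≤ (nb A v).card

/-- two of the initially open neighbours of `v` are on its line in direction `k` -/
def Lin (A : Finset (Site n d)) (v : Site n d) (k : Fin d) : Prop :=
  ∃ s t, s ≠ t ∧ s ∈ nb A v ∧ t ∈ nb A v ∧ OnLine v k s ∧ OnLine v k t

/-- `x` is `v` or lies on a line through `v` with two other initially open sites -/
def Belongs (A : Finset (Site n d)) (v x : Site n d) : Prop :=
  x = v ∨ ∃ k, Lin A v k ∧ OnLine v k x

/-- the candidate for a closed set -/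
def Cl (A : Finset (Site n d)) (x : Site n d) : Prop := x ∈ A ∨ ∃ v, Hot A v ∧ Belongs A v x

lemma onLine_dist {v x : Site n d} {k : Fin d} (h : OnLine v k x) : hammingDist v x ≤ 1 := by
  unfold hammingDist
  calc (univ.filter (fun i => v i ≠ x i)).card ≤ ({k} : Finset (Fin d)).card := by
        refine card_le_card ?_
        intro l hl
        simp only [mem_filter, mem_univ, true_and] at hl
        rw [mem_singleton]
        by_contra hlk
        exact hl (h l hlk).symm
    _ = 1 := card_singleton k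

lemma belongs_dist {A : Finset (Site n d)} {v x : Site n d} (h : Belongs A v x) :
    hammingDist v x ≤ 1 := by
  rcases h with rfl | ⟨k, _, h⟩
  · simp
  · exact onLine_dist h

section Sparse

variable {A : Finset (Site n d)}

lemma Sparse.lt (hA : Sparse A) {s : ℕ} {X T : Finset (Site n d)} (hs : s ≤ 16) (hX : Conn s X)
    (hTX : T ⊆ X) (hTA : T ⊆ A) : (d + 5) * T.card < 4 * (s + d - 1) := by
  refine lt_of_le_of_lt ?_ (hA s X hs hX)
  exact Nat.mul_le_mul_left _ (card_le_card (subset_inter hTX hTA))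

lemma conn_hot (v : Site n d) (T : Finset (Site n d)) (hT : T ⊆ nb A v) :
    Conn (1 + T.card) (T ∪ {v}) :=
  Conn.add (Conn.base v) (mem_singleton_self v) T (fun t ht => (mem_nb.1 (hT ht)).2.le)

lemma nb_subset (A : Finset (Site n d)) (v : Site n d) : nb A v ⊆ A := filter_subset _ _

lemma card_nb (hA : Sparse A) {v : Site n d} (hv : Hot A v) : (nb A v).card = 3 := by
  refine le_antisymm ?_ hv
  by_contra hlt
  push Not at hlt
  obtain ⟨T, hT, hTc⟩ := Finset.exists_subset_card_eq (s := nb A v) (n := 4) (by omega)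
  have h := hA.lt (by omega) (conn_hot v T hT) subset_union_left (hT.trans (nb_subset A v))
  rw [hTc] at h
  omega

lemma conn_hot' (hA : Sparse A) {v : Site n d} (hv : Hot A v) : Conn 4 (nb A v ∪ {v}) := by
  have := conn_hot v (nb A v) (Finset.Subset.refl _)
  rwa [card_nb hA hv] at this

/-- at most two initially open sites on a line -/
lemma no_three_on_line (hA : Sparse A) (hd : d ≤ 7) {s t r : Site n d} (hs : s ∈ A) (ht : t ∈ A)
    (hr : r ∈ A) (h12 : s ≠ t) (h13 : s ≠ r) (h23 : t ≠ r) (d1 : hammingDist s t ≤ 1)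
    (d2 : hammingDist s r ≤ 1) : False := by
  have c1 : Conn (1 + 2) (({t, r} : Finset (Site n d)) ∪ {s}) := by
    have := Conn.add (Conn.base s) (mem_singleton_self s) {t, r} (by
      intro x hx
      simp only [mem_insert, mem_singleton] at hx
      rcases hx with rfl | rfl
      · exact d1
      · exact d2)
    rwa [card_pair h23] at this
  have h := hA.lt (T := {s, t, r}) (by omega) c1 (by
    intro x hx
    simp only [mem_insert, mem_singleton] at hx
    simp only [mem_union, mem_insert, mem_singleton]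
    tauto) (by
    intro x hx
    simp only [mem_insert, mem_singleton] at hx
    rcases hx with rfl | rfl | rfl <;> assumption)
  have hc : ({s, t, r} : Finset (Site n d)).card = 3 :=
    Finset.card_eq_three.2 ⟨s, t, r, h12, h13, h23, rfl⟩
  rw [hc] at h
  omega

/-- different hot sites have no common initially open neighbour and are far apart -/
lemma hot_sep (hA : Sparse A) (hd3 : 3 ≤ d) (hd7 : d ≤ 7) {v₁ v₂ : Site n d} (h1 : Hot A v₁)
    (h2 : Hot A v₂) (hne : v₁ ≠ v₂) :
    Disjoint (nb A v₁) (nb A v₂) ∧ 4 ≤ hammingDist v₁ v₂ := by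
  have k1 := card_nb hA h1
  have k2 := card_nb hA h2
  have hdisj : Disjoint (nb A v₁) (nb A v₂) := by
    by_contra hnd
    rw [Finset.not_disjoint_iff] at hnd
    obtain ⟨x, hx1, hx2⟩ := hnd
    -- connected set
    have c1 : Conn 5 (insert v₂ (nb A v₁ ∪ {v₁})) := by
      refine Conn.step (conn_hot' hA h1) (w := x) (mem_union_left _ hx1) ?_
      rw [hammingDist_comm]
      exact (mem_nb.1 hx2).2.le
    have c2 : Conn (5 + (nb A v₂ \ nb A v₁).card)
        ((nb A v₂ \ nb A v₁) ∪ insert v₂ (nb A v₁ ∪ {v₁})) :=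
      Conn.add c1 (mem_insert_self _ _) _ (fun t ht =>
        (mem_nb.1 (mem_sdiff.1 ht).1).2.le)
    have hsub : (nb A v₂ \ nb A v₁) ∪ nb A v₁ ⊆
        (nb A v₂ \ nb A v₁) ∪ insert v₂ (nb A v₁ ∪ {v₁}) := by
      intro y hy
      simp only [mem_union, mem_insert, mem_singleton] at hy ⊢
      tauto
    have hle : (nb A v₂ \ nb A v₁).card ≤ 3 := by
      rw [← k2]; exact card_le_card sdiff_subset
    have h := hA.lt (by omega) c2 hsub
      (union_subset (sdiff_subset.trans (nb_subset A v₂)) (nb_subset A v₁))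
    rw [card_union_of_disjoint sdiff_disjoint, k1] at h
    have hlt : (nb A v₂ \ nb A v₁).card < 3 := by
      rw [← k2]
      refine card_lt_card ?_
      rw [Finset.ssubset_iff_of_subset sdiff_subset]
      exact ⟨x, hx2, by simp [hx1]⟩
    have hzero : (nb A v₂ \ nb A v₁).card = 0 := by
      generalize (nb A v₂ \ nb A v₁).card = c at h hlt
      interval_cases c
      · rfl
      · omega
      · omega
    rw [card_eq_zero, sdiff_eq_empty_iff_subset] at hzero
    obtain ⟨a, b, c, hab, hac, hbc, habc⟩ := Finset.card_eq_three.1 k2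
    have ha : a ∈ nb A v₂ := by rw [habc]; simp
    have hb : b ∈ nb A v₂ := by rw [habc]; simp
    have hc : c ∈ nb A v₂ := by rw [habc]; simp
    obtain ⟨k, -, l1, l2, l3⟩ := three_common hne hab hac hbc (mem_nb.1 (hzero ha)).2
      (mem_nb.1 (hzero hb)).2 (mem_nb.1 (hzero hc)).2 (mem_nb.1 ha).2 (mem_nb.1 hb).2
      (mem_nb.1 hc).2
    have lab : OnLine a k b := fun l hl => by rw [l2 l hl, l1 l hl]
    have lac : OnLine a k c := fun l hl => by rw [l3 l hl, l1 l hl]
    exact no_three_on_line hA hd7 (mem_nb.1 ha).1 (mem_nb.1 hb).1 (mem_nb.1 hc).1 hab hac hbc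
      (onLine_dist lab) (onLine_dist lac)
  refine ⟨hdisj, ?_⟩
  by_contra hlt
  push Not at hlt
  obtain ⟨Y, hY, hXY, hvY⟩ := Conn.path (conn_hot' hA h1) (w := v₁) (u := v₂)
    (mem_union_right _ (mem_singleton_self v₁)) rfl
  have c2 := Conn.add hY hvY (nb A v₂) (fun t ht => (mem_nb.1 ht).2.le)
  have h := hA.lt (T := nb A v₁ ∪ nb A v₂) (by omega) c2 (by
    refine union_subset ?_ subset_union_left
    exact (subset_union_left.trans hXY).trans subset_union_right)
    (union_subset (nb_subset A v₁) (nb_subset A v₂))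
  rw [card_union_of_disjoint hdisj, k1, k2] at h
  omega

/-- the direction of a line with two initially open neighbours is unique -/
lemma lin_unique (hA : Sparse A) {v : Site n d} (hv : Hot A v) {k k' : Fin d}
    (h : Lin A v k) (h' : Lin A v k') : k = k' := by
  by_contra hkk
  obtain ⟨s, t, hst, hs, ht, ls, lt⟩ := h
  obtain ⟨s', t', hst', hs', ht', ls', lt'⟩ := h'
  have aux : ∀ x y, x ∈ nb A v → OnLine v k x → OnLine v k' y → x ≠ y := by
    intro x y hx hxl hyl hxy
    subst hxy
    have : x = v := by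
      funext l
      by_cases hl : l = k
      · subst hl
        exact hyl l hkk
      · exact hxl l hl
    subst this
    have := (mem_nb.1 hx).2
    simp at this
  have hsub : ({s, t} : Finset (Site n d)) ∪ {s', t'} ⊆ nb A v := by
    intro x hx
    simp only [mem_union, mem_insert, mem_singleton] at hx
    rcases hx with (rfl | rfl) | (rfl | rfl) <;> assumption
  have hdis : Disjoint ({s, t} : Finset (Site n d)) {s', t'} := by
    rw [Finset.disjoint_left]
    intro x hx hx'
    simp only [mem_insert, mem_singleton] at hx hx'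
    rcases hx with rfl | rfl <;> rcases hx' with h | h
    · exact aux x s' hs ls ls' h
    · exact aux x t' hs ls lt' h
    · exact aux x s' ht lt ls' h
    · exact aux x t' ht lt lt' h
  have := card_le_card hsub
  rw [card_union_of_disjoint hdis, card_pair hst, card_pair hst', card_nb hA hv] at this
  omega

/-- two distinct sites belonging to the same hot site are on a common line -/
lemma belongs_two (hA : Sparse A) {v : Site n d} (hv : Hot A v) {y y' : Site n d} (hne : y ≠ y')
    (h : Belongs A v y) (h' : Belongs A v y') :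
    ∃ k, Lin A v k ∧ OnLine v k y ∧ OnLine v k y' := by
  rcases h with rfl | ⟨k, hk, hy⟩ <;> rcases h' with rfl | ⟨k', hk', hy'⟩
  · exact absurd rfl hne
  · exact ⟨k', hk', fun _ _ => rfl, hy'⟩
  · exact ⟨k, hk, hy, fun _ _ => rfl⟩
  · have := lin_unique hA hv hk hk'
    subst this
    exact ⟨k, hk, hy, hy'⟩

lemma no_two_belongs (hA : Sparse A) {u v y y' : Site n d} (hu : ¬ Cl A u) (hv : Hot A v)
    (hne : y ≠ y') (h : Belongs A v y) (h' : Belongs A v y') (d1 : hammingDist u y = 1)
    (d2 : hammingDist u y' = 1) : False := by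
  obtain ⟨k, hk, hy, hy'⟩ := belongs_two hA hv hne h h'
  exact hu (Or.inr ⟨v, hv, Or.inr ⟨k, hk, two_on_line hy hy' hne d1 d2⟩⟩)

/-- one neighbour belonging to a hot site and two initially open neighbours -/
lemma no_B1 (hA : Sparse A) (hd3 : 3 ≤ d) {u v y₁ y₂ y₃ : Site n d} (hu : ¬ Cl A u)
    (hv : Hot A v) (b1 : Belongs A v y₁) (n1 : y₁ ∉ A) (a2 : y₂ ∈ A) (a3 : y₃ ∈ A)
    (h23 : y₂ ≠ y₃) (d1 : hammingDist u y₁ = 1) (d2 : hammingDist u y₂ = 1)
    (d3 : hammingDist u y₃ = 1) : False := by
  have kv := card_nb hA hv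
  have cv := conn_hot' hA hv
  have huv : u ≠ v := by
    rintro rfl
    exact hu (Or.inr ⟨u, hv, Or.inl rfl⟩)
  -- one common neighbour
  have one : ∀ x y, x ∈ A → y ∈ A → x ≠ y → hammingDist u x = 1 → hammingDist u y = 1 →
      x ∈ nb A v → y ∉ nb A v → False := by
    intro x y hx hy hxy dx dy hxv hyv
    have c1 : Conn 5 (insert u (nb A v ∪ {v})) := by
      refine Conn.step cv (w := x) (mem_union_left _ hxv) ?_
      rw [hammingDist_comm]
      exact dx.le
    have c2 : Conn 6 (insert y (insert u (nb A v ∪ {v}))) :=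
      Conn.step c1 (w := u) (mem_insert_self _ _) dy.le
    have h := hA.lt (T := insert y (nb A v)) (by omega) c2 (by
      intro z hz
      simp only [mem_insert, mem_union, mem_singleton] at hz ⊢
      tauto) (by
      intro z hz
      rw [mem_insert] at hz
      rcases hz with rfl | hz
      · exact hy
      · exact nb_subset A v hz)
    rw [card_insert_of_notMem hyv, kv] at h
    omega
  by_cases m2 : y₂ ∈ nb A v
  · by_cases m3 : y₃ ∈ nb A v
    · -- both are neighbours of `v`
      by_cases hy1 : y₁ = v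
      · subst hy1
        obtain ⟨k, hk, hw⟩ := common_of_adjacent d1
        have l2 := hw y₂ d2 (mem_nb.1 m2).2
        have l3 := hw y₃ d3 (mem_nb.1 m3).2
        exact hu (Or.inr ⟨y₁, hv, Or.inr ⟨k, ⟨y₂, y₃, h23, m2, m3, l2, l3⟩, hk⟩⟩)
      · have hd1 : hammingDist v y₁ = 1 := by
          have h1 := belongs_dist b1
          have h2 : hammingDist v y₁ ≠ 0 := by
            intro h
            rw [hammingDist_eq_zero] at h
            exact hy1 h.symm
          omega
        have h12 : y₁ ≠ y₂ := by rintro rfl; exact n1 a2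
        have h13 : y₁ ≠ y₃ := by rintro rfl; exact n1 a3
        obtain ⟨k, hk, l1, l2, l3⟩ := three_common huv h12 h13 h23 d1 d2 d3 hd1
          (mem_nb.1 m2).2 (mem_nb.1 m3).2
        exact hu (Or.inr ⟨v, hv, Or.inr ⟨k, ⟨y₂, y₃, h23, m2, m3, l2, l3⟩, hk⟩⟩)
    · exact one y₂ y₃ a2 a3 h23 d2 d3 m2 m3
  · by_cases m3 : y₃ ∈ nb A v
    · exact one y₃ y₂ a3 a2 h23.symm d3 d2 m3 m2
    · have c1 : Conn 5 (insert y₁ (nb A v ∪ {v})) :=
        Conn.step cv (w := v) (mem_union_right _ (mem_singleton_self v)) (belongs_dist b1)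
      have c2 : Conn 6 (insert u (insert y₁ (nb A v ∪ {v}))) := by
        refine Conn.step c1 (w := y₁) (mem_insert_self _ _) ?_
        rw [hammingDist_comm]
        exact d1.le
      have c3 : Conn 7 (insert y₂ (insert u (insert y₁ (nb A v ∪ {v})))) :=
        Conn.step c2 (w := u) (mem_insert_self _ _) d2.le
      have c4 : Conn 8 (insert y₃ (insert y₂ (insert u (insert y₁ (nb A v ∪ {v}))))) :=
        Conn.step c3 (w := u) (mem_insert_of_mem (mem_insert_self _ _)) d3.le
      have h := hA.lt (T := insert y₃ (insert y₂ (nb A v))) (by omega) c4 (by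
        intro z hz
        simp only [mem_insert, mem_union, mem_singleton] at hz ⊢
        tauto) (by
        intro z hz
        simp only [mem_insert] at hz
        rcases hz with rfl | rfl | hz
        · exact a3
        · exact a2
        · exact nb_subset A v hz)
      have hy3 : y₃ ∉ insert y₂ (nb A v) := by
        rw [mem_insert, not_or]
        exact ⟨h23.symm, m3⟩
      rw [card_insert_of_notMem hy3, card_insert_of_notMem m2, kv] at h
      omega

/-- two neighbours belonging to hot sites -/
lemma no_B2 (hA : Sparse A) (hd3 : 3 ≤ d) (hd7 : d ≤ 7) {u v₁ v₂ y₁ y₂ y₃ : Site n d}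
    (hu : ¬ Cl A u) (hv₁ : Hot A v₁) (hv₂ : Hot A v₂) (b1 : Belongs A v₁ y₁)
    (b2 : Belongs A v₂ y₂) (hy3 : Cl A y₃) (h12 : y₁ ≠ y₂) (h13 : y₁ ≠ y₃) (h23 : y₂ ≠ y₃)
    (d1 : hammingDist u y₁ = 1) (d2 : hammingDist u y₂ = 1) (d3 : hammingDist u y₃ = 1) :
    False := by
  by_cases hvv : v₁ = v₂
  · subst hvv
    exact no_two_belongs hA hu hv₁ h12 b1 b2 d1 d2
  have k1 := card_nb hA hv₁
  have k2 := card_nb hA hv₂
  obtain ⟨hdis, -⟩ := hot_sep hA hd3 hd7 hv₁ hv₂ hvv
  -- the case of an initially open neighbour adjacent to one of the hot sites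
  have adj : ∀ v₁ v₂ y₂, Hot A v₁ → Hot A v₂ → Disjoint (nb A v₁) (nb A v₂) →
      Belongs A v₂ y₂ → hammingDist u y₂ = 1 → y₃ ∈ nb A v₁ → False := by
    intro v₁ v₂ y₂ hv₁ hv₂ hdis b2 d2 hy
    have k1 := card_nb hA hv₁
    have k2 := card_nb hA hv₂
    have c1 : Conn 5 (insert u (nb A v₁ ∪ {v₁})) := by
      refine Conn.step (conn_hot' hA hv₁) (w := y₃) (mem_union_left _ hy) ?_
      rw [hammingDist_comm]
      exact d3.le
    have c2 : Conn 6 (insert y₂ (insert u (nb A v₁ ∪ {v₁}))) :=
      Conn.step c1 (w := u) (mem_insert_self _ _) d2.le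
    have c3 : Conn 7 (insert v₂ (insert y₂ (insert u (nb A v₁ ∪ {v₁})))) := by
      refine Conn.step c2 (w := y₂) (mem_insert_self _ _) ?_
      rw [hammingDist_comm]
      exact belongs_dist b2
    have c4 := Conn.add c3 (mem_insert_self _ _) (nb A v₂) (fun t ht => (mem_nb.1 ht).2.le)
    have h := hA.lt (T := nb A v₁ ∪ nb A v₂) (by omega) c4 (by
      intro z hz
      simp only [mem_insert, mem_union, mem_singleton] at hz ⊢
      tauto) (union_subset (nb_subset A v₁) (nb_subset A v₂))
    rw [card_union_of_disjoint hdis, k1, k2] at h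
    omega
  -- connected set containing everything
  have c1 : Conn 5 (insert y₁ (nb A v₁ ∪ {v₁})) :=
    Conn.step (conn_hot' hA hv₁) (w := v₁) (mem_union_right _ (mem_singleton_self v₁))
      (belongs_dist b1)
  have c2 : Conn 6 (insert u (insert y₁ (nb A v₁ ∪ {v₁}))) := by
    refine Conn.step c1 (w := y₁) (mem_insert_self _ _) ?_
    rw [hammingDist_comm]
    exact d1.le
  have c3 : Conn 7 (insert y₃ (insert u (insert y₁ (nb A v₁ ∪ {v₁})))) :=
    Conn.step c2 (w := u) (mem_insert_self _ _) d3.le
  have c4 : Conn 8 (insert y₂ (insert y₃ (insert u (insert y₁ (nb A v₁ ∪ {v₁}))))) :=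
    Conn.step c3 (w := u) (mem_insert_of_mem (mem_insert_self _ _)) d2.le
  have c5 : Conn 9 (insert v₂ (insert y₂ (insert y₃ (insert u (insert y₁
      (nb A v₁ ∪ {v₁})))))) := by
    refine Conn.step c4 (w := y₂) (mem_insert_self _ _) ?_
    rw [hammingDist_comm]
    exact belongs_dist b2
  have c6 := Conn.add c5 (mem_insert_self _ _) (nb A v₂) (fun t ht => (mem_nb.1 ht).2.le)
  rw [k2] at c6
  by_cases hyA : y₃ ∈ A
  · by_cases m1 : y₃ ∈ nb A v₁
    · exact adj v₁ v₂ y₂ hv₁ hv₂ hdis b2 d2 m1
    by_cases m2 : y₃ ∈ nb A v₂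
    · exact adj v₂ v₁ y₁ hv₂ hv₁ hdis.symm b1 d1 m2
    have h := hA.lt (T := insert y₃ (nb A v₁ ∪ nb A v₂)) (by omega) c6 (by
      intro z hz
      simp only [mem_insert, mem_union, mem_singleton] at hz ⊢
      tauto) (by
      intro z hz
      simp only [mem_insert, mem_union] at hz
      rcases hz with rfl | hz | hz
      · exact hyA
      · exact nb_subset A v₁ hz
      · exact nb_subset A v₂ hz)
    have hy3' : y₃ ∉ nb A v₁ ∪ nb A v₂ := by
      rw [mem_union, not_or]
      exact ⟨m1, m2⟩
    rw [card_insert_of_notMem hy3', card_union_of_disjoint hdis, k1, k2] at h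
    omega
  · rcases hy3 with h | ⟨v₃, hv₃, b3⟩
    · exact hyA h
    by_cases e1 : v₃ = v₁
    · subst e1
      exact no_two_belongs hA hu hv₁ h13 b1 b3 d1 d3
    by_cases e2 : v₃ = v₂
    · subst e2
      exact no_two_belongs hA hu hv₂ h23 b2 b3 d2 d3
    obtain ⟨dis1, -⟩ := hot_sep hA hd3 hd7 hv₃ hv₁ e1
    obtain ⟨dis2, -⟩ := hot_sep hA hd3 hd7 hv₃ hv₂ e2
    have k3 := card_nb hA hv₃
    have c7 := Conn.step c6 (w := y₃) (u := v₃) (by simp) (by
      rw [hammingDist_comm]
      exact belongs_dist b3)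
    have c8 := Conn.add c7 (mem_insert_self _ _) (nb A v₃) (fun t ht => (mem_nb.1 ht).2.le)
    rw [k3] at c8
    have h := hA.lt (T := nb A v₃ ∪ (nb A v₁ ∪ nb A v₂)) (by omega) c8 (by
      intro z hz
      simp only [mem_insert, mem_union, mem_singleton] at hz ⊢
      tauto) (union_subset (nb_subset A v₃) (union_subset (nb_subset A v₁) (nb_subset A v₂)))
    rw [card_union_of_disjoint (by
      rw [Finset.disjoint_union_right]
      exact ⟨dis1, dis2⟩), card_union_of_disjoint hdis, k1, k2, k3] at h
    omega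

/-- the candidate set is closed -/
lemma cl_closed (hA : Sparse A) (hd3 : 3 ≤ d) (hd7 : d ≤ 7) {u y₁ y₂ y₃ : Site n d}
    (c1 : Cl A y₁) (c2 : Cl A y₂) (c3 : Cl A y₃) (h12 : y₁ ≠ y₂) (h13 : y₁ ≠ y₃) (h23 : y₂ ≠ y₃)
    (d1 : hammingDist u y₁ = 1) (d2 : hammingDist u y₂ = 1) (d3 : hammingDist u y₃ = 1) :
    Cl A u := by
  by_contra hu
  have ex : ∀ y, Cl A y → y ∉ A → ∃ v, Hot A v ∧ Belongs A v y := by
    intro y hy hyA
    rcases hy with h | h
    · exact absurd h hyA
    · exact h
  by_cases a1 : y₁ ∈ A <;> by_cases a2 : y₂ ∈ A <;> by_cases a3 : y₃ ∈ A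
  · -- all initially open
    apply hu
    refine Or.inr ⟨u, ?_, Or.inl rfl⟩
    unfold Hot
    rw [← Finset.card_eq_three.2 ⟨y₁, y₂, y₃, h12, h13, h23, rfl⟩]
    refine card_le_card ?_
    intro z hz
    simp only [mem_insert, mem_singleton] at hz
    rw [mem_nb]
    rcases hz with rfl | rfl | rfl
    · exact ⟨a1, d1⟩
    · exact ⟨a2, d2⟩
    · exact ⟨a3, d3⟩
  · obtain ⟨v, hv, b⟩ := ex y₃ c3 a3
    exact no_B1 hA hd3 hu hv b a3 a1 a2 h12 d3 d1 d2
  · obtain ⟨v, hv, b⟩ := ex y₂ c2 a2
    exact no_B1 hA hd3 hu hv b a2 a1 a3 h13 d2 d1 d3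
  · obtain ⟨v, hv, b⟩ := ex y₂ c2 a2
    obtain ⟨v', hv', b'⟩ := ex y₃ c3 a3
    exact no_B2 hA hd3 hd7 hu hv hv' b b' c1 h23 h12.symm h13.symm d2 d3 d1
  · obtain ⟨v, hv, b⟩ := ex y₁ c1 a1
    exact no_B1 hA hd3 hu hv b a1 a2 a3 h23 d1 d2 d3
  · obtain ⟨v, hv, b⟩ := ex y₁ c1 a1
    obtain ⟨v', hv', b'⟩ := ex y₃ c3 a3
    exact no_B2 hA hd3 hd7 hu hv hv' b b' c2 h13 h12 h23.symm d1 d3 d2
  · obtain ⟨v, hv, b⟩ := ex y₁ c1 a1
    obtain ⟨v', hv', b'⟩ := ex y₂ c2 a2
    exact no_B2 hA hd3 hd7 hu hv hv' b b' c3 h12 h13 h23 d1 d2 d3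
  · obtain ⟨v, hv, b⟩ := ex y₁ c1 a1
    obtain ⟨v', hv', b'⟩ := ex y₂ c2 a2
    exact no_B2 hA hd3 hd7 hu hv hv' b b' c3 h12 h13 h23 d1 d2 d3

lemma cl_of_openAtEnd (hA : Sparse A) (hd3 : 3 ≤ d) (hd7 : d ≤ 7) {v : Site n d}
    (hv : OpenAtEnd 3 A v) : Cl A v := by
  obtain ⟨j, hj⟩ := hv
  induction j generalizing v with
  | zero => exact Or.inl (by simpa using hj)
  | succ j ih =>
    rw [Function.iterate_succ_apply', mem_step] at hj
    rcases hj with hj | hj
    · exact ih hj
    · obtain ⟨T, hT, hTc⟩ := Finset.exists_subset_card_eq hj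
      obtain ⟨a, b, c, hab, hac, hbc, rfl⟩ := Finset.card_eq_three.1 hTc
      have ha := mem_filter.1 (hT (show a ∈ ({a, b, c} : Finset (Site n d)) by simp))
      have hb := mem_filter.1 (hT (show b ∈ ({a, b, c} : Finset (Site n d)) by simp))
      have hc := mem_filter.1 (hT (show c ∈ ({a, b, c} : Finset (Site n d)) by simp))
      exact cl_closed hA hd3 hd7 (ih ha.1) (ih hb.1) (ih hc.1) hab hac hbc ha.2 hb.2 hc.2

/-- a line contained in the candidate set contains a hot site -/
lemma hot_on_line (hA : Sparse A) (hd3 : 3 ≤ d) (hd7 : d ≤ 7) (hn : 4 ≤ n) (a : Site n d)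
    (i : Fin d) (h : ∀ x, OnLine a i x → Cl A x) : ∃ v, Hot A v ∧ OnLine a i v := by
  -- the sites of the line
  set f : Fin n → Site n d := fun z => Function.update a i z with hf
  have hfl : ∀ z, OnLine a i (f z) := fun z l hl => by rw [hf]; simp [Function.update_of_ne hl]
  have hfinj : Function.Injective f := by
    intro z z' hzz
    have := congrFun hzz i
    simpa [hf] using this
  have hfd : ∀ z z', hammingDist (f z) (f z') ≤ 1 := by
    intro z z'
    refine onLine_dist (k := i) ?_
    intro l hl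
    rw [hfl z l hl, hfl z' l hl]
  -- at most two are initially open
  have hcard : (univ.filter (fun z => f z ∈ A)).card ≤ 2 := by
    by_contra hlt
    push Not at hlt
    obtain ⟨T, hT, hTc⟩ := Finset.exists_subset_card_eq (s := univ.filter (fun z => f z ∈ A))
      (n := 3) (by omega)
    obtain ⟨x, y, z, hxy, hxz, hyz, rfl⟩ := Finset.card_eq_three.1 hTc
    have hx := mem_filter.1 (hT (show x ∈ ({x, y, z} : Finset (Fin n)) by simp))
    have hy := mem_filter.1 (hT (show y ∈ ({x, y, z} : Finset (Fin n)) by simp))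
    have hz := mem_filter.1 (hT (show z ∈ ({x, y, z} : Finset (Fin n)) by simp))
    exact no_three_on_line hA hd7 hx.2 hy.2 hz.2 (fun h => hxy (hfinj h))
      (fun h => hxz (hfinj h)) (fun h => hyz (hfinj h)) (hfd x y) (hfd x z)
  have hcard2 : 1 < (univ.filter (fun z => f z ∉ A)).card := by
    have h1 : (univ.filter (fun z => f z ∈ A)).card + (univ.filter (fun z => ¬ (f z ∈ A))).card
        = n := by
      rw [Finset.card_filter_add_card_filter_not]
      simp
    omega
  rw [Finset.one_lt_card] at hcard2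
  obtain ⟨z, hz, z', hz', hzz⟩ := hcard2
  rw [mem_filter] at hz hz'
  have cz := h (f z) (hfl z)
  have cz' := h (f z') (hfl z')
  rcases cz with h1 | ⟨v, hv, b⟩
  · exact absurd h1 hz.2
  rcases cz' with h1 | ⟨v', hv', b'⟩
  · exact absurd h1 hz'.2
  have hvv : v = v' := by
    by_contra hne
    obtain ⟨-, h4⟩ := hot_sep hA hd3 hd7 hv hv' hne
    have t1 : hammingDist v v' ≤ hammingDist v (f z) + hammingDist (f z) v' :=
      hammingDist_triangle _ _ _
    have t2 : hammingDist (f z) v' ≤ hammingDist (f z) (f z') + hammingDist (f z') v' :=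
      hammingDist_triangle _ _ _
    have t3 := hfd z z'
    have t4 := belongs_dist b
    have t5 := belongs_dist b'
    rw [hammingDist_comm v' (f z')] at t5
    omega
  subst hvv
  have hfne : f z ≠ f z' := fun h => hzz (hfinj h)
  obtain ⟨k, -, l1, l2⟩ := belongs_two hA hv hfne b b'
  have hki : k = i := by
    by_contra hki
    apply hfne
    funext l
    by_cases hl : l = i
    · subst hl
      rw [l1 l (Ne.symm hki), l2 l (Ne.symm hki)]
    · rw [hfl z l hl, hfl z' l hl]
  subst hki
  refine ⟨v, hv, fun l hl => ?_⟩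
  rw [← l1 l hl, hfl z l hl]

/-- **No plane opens** when the initially open sites are sparse. -/
theorem not_opensSubgraph (hA : Sparse A) (hd3 : 3 ≤ d) (hd7 : d ≤ 7) (hn : 4 ≤ n) {i : ℕ}
    (hi : 2 ≤ i) : ¬ OpensSubgraph 3 i A := by
  rintro ⟨I, a, hI, hx⟩
  have h1 : 1 < I.card := by omega
  rw [Finset.one_lt_card] at h1
  obtain ⟨k, hk, l, hl, hkl⟩ := h1
  -- rows of the plane
  have row : ∀ w : Fin n, ∃ v, Hot A v ∧ OnLine (Function.update a l w) k v := by
    intro w
    refine hot_on_line hA hd3 hd7 hn _ k (fun x hxl => ?_)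
    refine cl_of_openAtEnd hA hd3 hd7 (hx x (fun m hm => ?_))
    have hmk : m ≠ k := by rintro rfl; exact hm hk
    have hml : m ≠ l := by rintro rfl; exact hm hl
    rw [hxl m hmk, Function.update_of_ne hml]
  obtain ⟨v, hv, lv⟩ := row ⟨0, by omega⟩
  obtain ⟨v', hv', lv'⟩ := row ⟨1, by omega⟩
  have hne : v ≠ v' := by
    rintro rfl
    have e1 := lv l hkl.symm
    have e2 := lv' l hkl.symm
    rw [Function.update_self] at e1 e2
    rw [e1] at e2
    simp at e2
  obtain ⟨-, h4⟩ := hot_sep hA hd3 hd7 hv hv' hne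
  have hle : hammingDist v v' ≤ 2 := by
    unfold hammingDist
    calc (univ.filter (fun i => v i ≠ v' i)).card ≤ ({k, l} : Finset (Fin d)).card := by
          refine card_le_card ?_
          intro m hm
          simp only [mem_filter, mem_univ, true_and] at hm
          by_contra hm'
          simp only [mem_insert, mem_singleton, not_or] at hm'
          apply hm
          rw [lv m hm'.1, lv' m hm'.1, Function.update_of_ne hm'.2, Function.update_of_ne hm'.2]
      _ ≤ 2 := card_le_two
  omega

end Sparse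

end Pool.Agent.HammingTorus
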