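import Mathlib
import Pool.Agent.Lib.MP_af82af_pr.Obstruct
import Pool.Agent.Lib.MP_af82af_pr.Indep

/-!
# Threshold three: below the critical exponent the open sites are sparse
-/

open Finset

namespace Pool.Agent.HammingTorus

variable {n d : ℕ}

open scoped Classical

/-- a finite set containing all sets `X` with `Conn (m+1) X` -/
noncomputable def connSets (n d : ℕ) : ℕ → Finset (Finset (Site n d))
  | 0 => univ.image (fun v => {v})
  | m + 1 => ((connSets n d m).filter (fun X => X.card ≤ m + 1)).biUnion (fun X => X.biUnion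
      (fun w => (univ : Finset (Fin d × Fin n)).image
        (fun q => insert (Function.update w q.1 q.2) X)))

lemma exists_update_of_dist_le (hd : 1 ≤ d) {w u : Site n d} (h : hammingDist w u ≤ 1) :
    ∃ q : Fin d × Fin n, Function.update w q.1 q.2 = u := by
  rcases Nat.lt_or_ge (hammingDist w u) 1 with h0 | h1
  · have : hammingDist w u = 0 := by omega
    rw [hammingDist_eq_zero] at this
    subst this
    exact ⟨(⟨0, hd⟩, w ⟨0, hd⟩), by simp⟩
  · obtain ⟨k, -, hk⟩ := exists_of_dist_one (le_antisymm h h1)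
    refine ⟨(k, u k), ?_⟩
    funext l
    by_cases hl : l = k
    · subst hl; simp
    · simp only
      rw [Function.update_of_ne hl, hk l hl]

lemma Conn.pos {s : ℕ} {X : Finset (Site n d)} (h : Conn s X) : 1 ≤ s := by
  cases h <;> omega

lemma Conn.card_le {s : ℕ} {X : Finset (Site n d)} (h : Conn s X) : X.card ≤ s := by
  induction h with
  | base v => simp
  | step _ _ _ ih => exact (card_insert_le _ _).trans (by omega)

lemma Conn.mem_connSets (hd : 1 ≤ d) {s : ℕ} {X : Finset (Site n d)} (h : Conn s X) :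
    X ∈ connSets n d (s - 1) := by
  induction h with
  | base v => simp [connSets]
  | @step s X w u h hw hu ih =>
    have hs := h.pos
    obtain ⟨m, rfl⟩ : ∃ m, s = m + 1 := ⟨s - 1, by omega⟩
    simp only [Nat.add_sub_cancel] at ih ⊢
    rw [connSets, mem_biUnion]
    refine ⟨X, mem_filter.2 ⟨ih, h.card_le⟩, ?_⟩
    rw [mem_biUnion]
    refine ⟨w, hw, ?_⟩
    rw [mem_image]
    obtain ⟨q, hq⟩ := exists_update_of_dist_le hd hu
    exact ⟨q, mem_univ _, by rw [hq]⟩

lemma card_connSets (m : ℕ) (hm : m ≤ 15) :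
    (connSets n d m).card ≤ n ^ d * (16 * d * n) ^ m := by
  induction m with
  | zero =>
    rw [connSets]
    refine card_image_le.trans ?_
    simp
  | succ m ih =>
    have ih' := ih (by omega)
    rw [connSets]
    calc _ ≤ ∑ X ∈ (connSets n d m).filter (fun X => X.card ≤ m + 1),
          (X.biUnion (fun w => (univ : Finset (Fin d × Fin n)).image
            (fun q => insert (Function.update w q.1 q.2) X))).card := card_biUnion_le
      _ ≤ ∑ X ∈ (connSets n d m).filter (fun X => X.card ≤ m + 1), 16 * d * n := by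
          refine sum_le_sum (fun X hX => ?_)
          rw [mem_filter] at hX
          calc _ ≤ ∑ w ∈ X, ((univ : Finset (Fin d × Fin n)).image
                (fun q => insert (Function.update w q.1 q.2) X)).card := card_biUnion_le
            _ ≤ ∑ w ∈ X, d * n := by
                refine sum_le_sum (fun w _ => ?_)
                refine card_image_le.trans ?_
                simp
            _ = X.card * (d * n) := by rw [sum_const, smul_eq_mul]
            _ ≤ 16 * (d * n) := Nat.mul_le_mul_right _ (by omega)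
            _ = 16 * d * n := by ring
      _ = ((connSets n d m).filter (fun X => X.card ≤ m + 1)).card * (16 * d * n) := by
          rw [sum_const, smul_eq_mul]
      _ ≤ (n ^ d * (16 * d * n) ^ m) * (16 * d * n) := by
          gcongr
          exact (card_filter_le _ _).trans ih'
      _ = n ^ d * (16 * d * n) ^ (m + 1) := by ring

/-- the probability that the open sites are not sparse is small -/
lemma prob_not_sparse_le (hd : 1 ≤ d) (hn : 2 ≤ n) {ε p : ℝ} (hε : 0 < ε) (h0 : 0 ≤ p)
    (h1 : p ≤ 1) (hp : p ≤ (n:ℝ) ^ (-((d:ℝ) + 5) / 4 - ε)) :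
    prob p (fun A : Finset (Site n d) => ¬ Sparse A) ≤
      (16 * (16 * (d:ℝ)) ^ 15 * 2 ^ 16) * (n:ℝ) ^ (-ε) := by
  have hnR : (1:ℝ) < n := by exact_mod_cast (by omega : 1 < n)
  have hn0 : (0:ℝ) < n := by linarith
  have hdR : (1:ℝ) ≤ d := by exact_mod_cast hd
  set good : ℕ → Finset (Site n d) → Prop := fun m T => 4 * (m + d) ≤ (d + 5) * T.card with hgood
  set Y : ℕ → Finset (Finset (Site n d)) := fun m =>
    ((connSets n d m).filter (fun X => X.card ≤ 16)).biUnion
      (fun X => X.powerset.filter (good m)) with hY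
  set 𝒯 : Finset (Finset (Site n d)) := (range 16).biUnion Y with h𝒯
  have hub : prob p (fun A : Finset (Site n d) => ¬ Sparse A) ≤ ∑ T ∈ 𝒯, p ^ T.card := by
    refine prob_union_bound h0 h1 _ 𝒯 ?_
    intro A hA
    unfold Sparse at hA
    push Not at hA
    obtain ⟨s, X, hs, hX, hle⟩ := hA
    refine ⟨X ∩ A, ?_, inter_subset_right⟩
    have hpos := hX.pos
    rw [h𝒯, mem_biUnion]
    refine ⟨s - 1, mem_range.2 (by omega), ?_⟩
    rw [hY, mem_biUnion]
    refine ⟨X, mem_filter.2 ⟨hX.mem_connSets hd, hX.card_le.trans hs⟩, ?_⟩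
    rw [mem_filter, mem_powerset]
    refine ⟨inter_subset_left, ?_⟩
    rw [hgood]
    simp only
    have : s - 1 + d = s + d - 1 := by omega
    rw [this]
    exact hle
  -- bound of a single term
  have hterm : ∀ m, ∀ T ∈ Y m, p ^ T.card ≤ (n:ℝ) ^ (-((m:ℝ) + d) - ε) := by
    intro m T hT
    rw [hY, mem_biUnion] at hT
    obtain ⟨X, -, hT⟩ := hT
    rw [mem_filter] at hT
    have hg : 4 * (m + d) ≤ (d + 5) * T.card := hT.2
    have hk : 1 ≤ T.card := by
      by_contra h
      have : T.card = 0 := by omega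
      rw [this] at hg
      omega
    have hgR : 4 * ((m:ℝ) + d) ≤ ((d:ℝ) + 5) * T.card := by exact_mod_cast hg
    have hkR : (1:ℝ) ≤ T.card := by exact_mod_cast hk
    calc p ^ T.card ≤ ((n:ℝ) ^ (-((d:ℝ) + 5) / 4 - ε)) ^ T.card := pow_le_pow_left₀ h0 hp _
      _ = (n:ℝ) ^ ((-((d:ℝ) + 5) / 4 - ε) * T.card) := by
          rw [← Real.rpow_natCast, ← Real.rpow_mul hn0.le]
      _ ≤ (n:ℝ) ^ (-((m:ℝ) + d) - ε) := by
          apply Real.rpow_le_rpow_of_exponent_le hnR.le
          nlinarith
  have hYcard : ∀ m, m ≤ 15 → ((Y m).card : ℝ) ≤ (n:ℝ) ^ d * (16 * d * n) ^ m * 2 ^ 16 := by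
    intro m hm
    have : (Y m).card ≤ n ^ d * (16 * d * n) ^ m * 2 ^ 16 := by
      calc (Y m).card ≤ ∑ X ∈ (connSets n d m).filter (fun X => X.card ≤ 16),
            (X.powerset.filter (good m)).card := card_biUnion_le
        _ ≤ ∑ X ∈ (connSets n d m).filter (fun X => X.card ≤ 16), 2 ^ 16 := by
            refine sum_le_sum (fun X hX => ?_)
            rw [mem_filter] at hX
            calc (X.powerset.filter (good m)).card ≤ X.powerset.card := card_filter_le _ _
              _ = 2 ^ X.card := card_powerset X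
              _ ≤ 2 ^ 16 := Nat.pow_le_pow_right (by norm_num) hX.2
        _ = ((connSets n d m).filter (fun X => X.card ≤ 16)).card * 2 ^ 16 := by
            rw [sum_const, smul_eq_mul]
        _ ≤ _ := by
            gcongr
            exact (card_filter_le _ _).trans (card_connSets m hm)
    exact_mod_cast this
  calc prob p (fun A : Finset (Site n d) => ¬ Sparse A) ≤ ∑ T ∈ 𝒯, p ^ T.card := hub
    _ ≤ ∑ m ∈ range 16, ∑ T ∈ Y m, p ^ T.card := by
        rw [h𝒯]
        -- sum over a union of a nonnegative function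
        have : ∀ s : Finset ℕ, ∑ T ∈ s.biUnion Y, p ^ T.card ≤ ∑ m ∈ s, ∑ T ∈ Y m, p ^ T.card := by
          intro s
          induction s using Finset.induction_on with
          | empty => simp
          | insert a s ha ih =>
            rw [biUnion_insert, sum_insert ha]
            have hu := Finset.sum_union_inter (s₁ := Y a) (s₂ := s.biUnion Y)
              (f := fun T : Finset (Site n d) => p ^ T.card)
            have hnn : 0 ≤ ∑ T ∈ Y a ∩ s.biUnion Y, p ^ T.card :=
              Finset.sum_nonneg (fun T _ => pow_nonneg h0 _)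
            linarith
        exact this (range 16)
    _ ≤ ∑ m ∈ range 16, (16 * (d:ℝ)) ^ 15 * 2 ^ 16 * (n:ℝ) ^ (-ε) := by
        refine sum_le_sum (fun m hm => ?_)
        rw [mem_range] at hm
        calc ∑ T ∈ Y m, p ^ T.card ≤ ∑ T ∈ Y m, (n:ℝ) ^ (-((m:ℝ) + d) - ε) :=
              sum_le_sum (hterm m)
          _ = ((Y m).card : ℝ) * (n:ℝ) ^ (-((m:ℝ) + d) - ε) := by
              rw [sum_const, nsmul_eq_mul]
          _ ≤ ((n:ℝ) ^ d * (16 * d * n) ^ m * 2 ^ 16) * (n:ℝ) ^ (-((m:ℝ) + d) - ε) := by
              gcongr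
              exact hYcard m (by omega)
          _ = (16 * (d:ℝ)) ^ m * 2 ^ 16 * (n:ℝ) ^ (-ε) := by
              have e1 : (n:ℝ) ^ (-((m:ℝ) + d) - ε) = ((n:ℝ) ^ m * (n:ℝ) ^ d)⁻¹ * (n:ℝ) ^ (-ε) := by
                rw [sub_eq_add_neg, Real.rpow_add hn0, Real.rpow_neg hn0.le]
                congr 2
                rw [Real.rpow_add hn0, Real.rpow_natCast, Real.rpow_natCast]
              rw [e1, mul_pow]
              field_simp
          _ ≤ (16 * (d:ℝ)) ^ 15 * 2 ^ 16 * (n:ℝ) ^ (-ε) := by
              gcongr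
              · linarith
              · omega
    _ = _ := by
        rw [sum_const, card_range]
        ring

end Pool.Agent.HammingTorus
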