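import Mathlib
import Pool.Agent.Lib.MP_af82af_pr.Basic

/-!
# Merging subcubes: a deterministic obstruction to the opening of the whole Hamming torus
-/

open Finset

namespace Pool.Agent.HammingTorus

variable {n d : ℕ}

open scoped Classical

/-- the coordinates in which not all members of `B` agree -/
noncomputable def freeSet (B : Finset (Site n d)) : Finset (Fin d) :=
  univ.filter (fun k => ∃ x ∈ B, ∃ y ∈ B, x k ≠ y k)

/-- the smallest subcube containing `B` (when `B` is nonempty) -/
def cubeOf (B : Finset (Site n d)) : Set (Site n d) :=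
  {v | ∀ k, k ∉ freeSet B → ∀ x ∈ B, v k = x k}

lemma not_mem_freeSet {B : Finset (Site n d)} {k : Fin d} :
    k ∉ freeSet B ↔ ∀ x ∈ B, ∀ y ∈ B, x k = y k := by
  simp only [freeSet, mem_filter, mem_univ, true_and]
  push Not
  rfl

lemma mem_cubeOf {B : Finset (Site n d)} {v : Site n d} (hv : v ∈ B) : v ∈ cubeOf B := by
  intro k hk x hx
  exact not_mem_freeSet.1 hk v hv x hx

/-- a site outside a subcube has at most one neighbour in it -/
lemma eq_of_two_neighbours {B : Finset (Site n d)} {v w₁ w₂ : Site n d} (hB : B.Nonempty)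
    (hv : v ∉ cubeOf B) (h1 : w₁ ∈ cubeOf B) (h2 : w₂ ∈ cubeOf B)
    (hd1 : hammingDist v w₁ = 1) (hd2 : hammingDist v w₂ = 1) : w₁ = w₂ := by
  obtain ⟨x, hx⟩ := hB
  have : ∃ k, k ∉ freeSet B ∧ v k ≠ x k := by
    by_contra hcon
    push Not at hcon
    apply hv
    intro k hk y hy
    rw [hcon k hk]
    exact not_mem_freeSet.1 hk x hx y hy
  obtain ⟨k, hk, hvk⟩ := this
  have e1 : w₁ k = x k := h1 k hk x hx
  have e2 : w₂ k = x k := h2 k hk x hx
  unfold hammingDist at hd1 hd2
  rw [Finset.card_eq_one] at hd1 hd2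
  obtain ⟨k1, hk1⟩ := hd1
  obtain ⟨k2, hk2⟩ := hd2
  have m1 : k ∈ ({k1} : Finset (Fin d)) := by
    rw [← hk1]; simp [e1, hvk]
  have m2 : k ∈ ({k2} : Finset (Fin d)) := by
    rw [← hk2]; simp [e2, hvk]
  rw [mem_singleton] at m1 m2
  subst m1
  subst m2
  ext l
  by_cases hl : l = k
  · subst hl; rw [e1, e2]
  · have a1 : v l = w₁ l := by
      by_contra hne
      have : l ∈ ({k} : Finset (Fin d)) := by rw [← hk1]; simp [hne]
      exact hl (by simpa using this)
    have a2 : v l = w₂ l := by
      by_contra hne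
      have : l ∈ ({k} : Finset (Fin d)) := by rw [← hk2]; simp [hne]
      exact hl (by simpa using this)
    rw [← a1, ← a2]

lemma card_freeSet_union {B C : Finset (Site n d)} (hB : B.Nonempty) (hC : C.Nonempty)
    {v w : Site n d} (hv : v ∈ cubeOf B) (hw : w ∈ cubeOf C) :
    (freeSet (B ∪ C)).card ≤ (freeSet B).card + (freeSet C).card + hammingDist v w := by
  have hsub : freeSet (B ∪ C) ⊆ freeSet B ∪ freeSet C ∪ univ.filter (fun k => v k ≠ w k) := by
    intro k hk
    by_contra hcon
    simp only [mem_union, not_or] at hcon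
    obtain ⟨⟨hkB, hkC⟩, hvw⟩ := hcon
    simp only [mem_filter, mem_univ, true_and, not_not] at hvw
    have hall : ∀ x ∈ B ∪ C, x k = v k := by
      intro x hx
      rw [mem_union] at hx
      rcases hx with hx | hx
      · exact (hv k hkB x hx).symm
      · rw [hvw]; exact (hw k hkC x hx).symm
    exact not_mem_freeSet.2 (fun x hx y hy => by rw [hall x hx, hall y hy]) hk
  calc (freeSet (B ∪ C)).card
      ≤ (freeSet B ∪ freeSet C ∪ univ.filter (fun k => v k ≠ w k)).card := card_le_card hsub
    _ ≤ (freeSet B ∪ freeSet C).card + (univ.filter (fun k => v k ≠ w k)).card :=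
        card_union_le _ _
    _ ≤ (freeSet B).card + (freeSet C).card + (univ.filter (fun k => v k ≠ w k)).card := by
        gcongr
        exact card_union_le _ _
    _ = _ := by
        unfold hammingDist
        congr 2

/-- a family of disjoint small blocks covering `A`, each block having a low-dimensional span -/
def GoodFamily (K : ℕ) (A : Finset (Site n d)) (P : Finset (Finset (Site n d))) : Prop :=
  (∀ x ∈ A, ∃ B ∈ P, x ∈ B) ∧
  (∀ B ∈ P, B.Nonempty ∧ B ⊆ A ∧ B.card < K ∧ (freeSet B).card + 2 ≤ 2 * B.card) ∧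
  (∀ B ∈ P, ∀ C ∈ P, B ≠ C → Disjoint B C)

lemma goodFamily_singletons {K : ℕ} (hK : 2 ≤ K) (A : Finset (Site n d)) :
    GoodFamily K A (A.image (fun x => ({x} : Finset (Site n d)))) := by
  refine ⟨?_, ?_, ?_⟩
  · intro x hx
    exact ⟨{x}, mem_image.2 ⟨x, hx, rfl⟩, mem_singleton_self x⟩
  · intro B hB
    rw [mem_image] at hB
    obtain ⟨x, hx, rfl⟩ := hB
    refine ⟨singleton_nonempty x, by simpa using hx, by simp; omega, ?_⟩
    have : freeSet ({x} : Finset (Site n d)) = ∅ := by
      ext k
      simp [freeSet]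
    rw [this]
    simp
  · intro B hB C hC hBC
    rw [mem_image] at hB hC
    obtain ⟨x, hx, rfl⟩ := hB
    obtain ⟨y, hy, rfl⟩ := hC
    rw [disjoint_singleton]
    rintro rfl
    exact hBC rfl

/-- If all low-dimensional subcubes contain few members of `A`, there is a good family with
pairwise far apart spans. -/
lemma exists_separated_family {K : ℕ} (hK : 2 ≤ K) (A : Finset (Site n d))
    (hA : ∀ (I : Finset (Fin d)) (a : Site n d), I.card ≤ 4 * K - 6 →
      (A.filter (fun x => ∀ k, k ∉ I → x k = a k)).card < K) :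
    ∃ P, GoodFamily K A P ∧ ∀ B ∈ P, ∀ C ∈ P, B ≠ C → ∀ v ∈ cubeOf B, ∀ w ∈ cubeOf C,
      3 ≤ hammingDist v w := by
  obtain ⟨P, hP, hmin⟩ := Finset.exists_min_image
    ((univ : Finset (Finset (Finset (Site n d)))).filter (GoodFamily K A)) Finset.card
    ⟨_, by simpa using goodFamily_singletons hK A⟩
  simp only [mem_filter, mem_univ, true_and] at hP hmin
  refine ⟨P, hP, ?_⟩
  intro B hB C hC hBC v hv w hw
  by_contra hlt
  push Not at hlt
  have hlt' : hammingDist v w ≤ 2 := by omega
  obtain ⟨hcov, hblk, hdis⟩ := hP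
  obtain ⟨hBne, hBA, hBK, hBf⟩ := hblk B hB
  obtain ⟨hCne, hCA, hCK, hCf⟩ := hblk C hC
  have hdisj : Disjoint B C := hdis B hB C hC hBC
  have hcard : (B ∪ C).card = B.card + C.card := card_union_of_disjoint hdisj
  have hfree : (freeSet (B ∪ C)).card + 2 ≤ 2 * (B ∪ C).card := by
    have := card_freeSet_union hBne hCne hv hw
    omega
  have hsubA : B ∪ C ⊆ A := union_subset hBA hCA
  obtain ⟨b, hb⟩ := hBne
  have hlt2 : (B ∪ C).card < K := by
    refine lt_of_le_of_lt ?_ (hA (freeSet (B ∪ C)) b (by omega))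
    refine card_le_card ?_
    intro x hx
    rw [mem_filter]
    exact ⟨hsubA hx, fun k hk => not_mem_freeSet.1 hk x hx b (mem_union_left _ hb)⟩
  -- the merged family
  set P' := insert (B ∪ C) ((P.erase B).erase C) with hP'
  have hgood : GoodFamily K A P' := by
    refine ⟨?_, ?_, ?_⟩
    · intro x hx
      obtain ⟨D, hD, hxD⟩ := hcov x hx
      by_cases h1 : D = B
      · exact ⟨B ∪ C, by simp [hP'], mem_union_left _ (h1 ▸ hxD)⟩
      · by_cases h2 : D = C
        · exact ⟨B ∪ C, by simp [hP'], mem_union_right _ (h2 ▸ hxD)⟩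
        · exact ⟨D, by simp [hP', h1, h2, hD], hxD⟩
    · intro D hD
      rw [hP', mem_insert] at hD
      rcases hD with rfl | hD
      · exact ⟨⟨b, mem_union_left _ hb⟩, hsubA, hlt2, hfree⟩
      · exact hblk D (mem_of_mem_erase (mem_of_mem_erase hD))
    · intro D hD E hE hDE
      have aux : ∀ F, F ∈ (P.erase B).erase C → Disjoint (B ∪ C) F := by
        intro F hF
        have hFP : F ∈ P := mem_of_mem_erase (mem_of_mem_erase hF)
        have hFC : F ≠ C := ne_of_mem_erase hF
        have hFB : F ≠ B := ne_of_mem_erase (mem_of_mem_erase hF)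
        rw [disjoint_union_left]
        exact ⟨hdis B hB F hFP hFB.symm, hdis C hC F hFP hFC.symm⟩
      rw [hP', mem_insert] at hD hE
      rcases hD with rfl | hD <;> rcases hE with rfl | hE
      · exact absurd rfl hDE
      · exact aux E hE
      · exact (aux D hD).symm
      · exact hdis D (mem_of_mem_erase (mem_of_mem_erase hD)) E
          (mem_of_mem_erase (mem_of_mem_erase hE)) hDE
  have hle := hmin P' hgood
  have hc1 : (P.erase B).card = P.card - 1 := card_erase_of_mem hB
  have hc2 : ((P.erase B).erase C).card = (P.erase B).card - 1 :=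
    card_erase_of_mem (mem_erase.2 ⟨hBC.symm, hC⟩)
  have hc3 : P'.card ≤ ((P.erase B).erase C).card + 1 := card_insert_le _ _
  have hpos : 0 < (P.erase B).card := card_pos.2 ⟨C, mem_erase.2 ⟨hBC.symm, hC⟩⟩
  omega

/-- The deterministic obstruction: if every subcube of dimension at most `4K-6` contains fewer
than `K` initially open sites, then the final configuration is not entirely open. -/
theorem exists_closed_site {K θ : ℕ} (hK : 2 ≤ K) (hθ : 2 ≤ θ) (hn : 2 ≤ n)
    (hd : 2 * K - 4 < d) (A : Finset (Site n d))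
    (hA : ∀ (I : Finset (Fin d)) (a : Site n d), I.card ≤ 4 * K - 6 →
      (A.filter (fun x => ∀ k, k ∉ I → x k = a k)).card < K) :
    ∃ v : Site n d, ¬ OpenAtEnd θ A v := by
  obtain ⟨P, ⟨hcov, hblk, hdis⟩, hsep⟩ := exists_separated_family hK A hA
  -- the closed set
  set U : Set (Site n d) := {v | ∃ B ∈ P, v ∈ cubeOf B} with hU
  have hstep : ∀ S : Finset (Site n d), (∀ v ∈ S, v ∈ U) → ∀ v ∈ step θ S, v ∈ U := by
    intro S hS v hv
    rw [mem_step] at hv
    rcases hv with hv | hv
    · exact hS v hv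
    · have h2 : 1 < (S.filter (fun w => hammingDist v w = 1)).card := by omega
      rw [Finset.one_lt_card] at h2
      obtain ⟨w₁, hw₁, w₂, hw₂, hne⟩ := h2
      rw [mem_filter] at hw₁ hw₂
      obtain ⟨B₁, hB₁, h1⟩ := hS w₁ hw₁.1
      obtain ⟨B₂, hB₂, h2⟩ := hS w₂ hw₂.1
      have hdist : hammingDist w₁ w₂ ≤ 2 := by
        calc hammingDist w₁ w₂ ≤ hammingDist w₁ v + hammingDist v w₂ :=
              hammingDist_triangle _ _ _
          _ = 2 := by rw [hammingDist_comm w₁ v, hw₁.2, hw₂.2]
      have hBB : B₁ = B₂ := by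
        by_contra hne'
        have := hsep B₁ hB₁ B₂ hB₂ hne' w₁ h1 w₂ h2
        omega
      subst hBB
      by_contra hvU
      have hvB : v ∉ cubeOf B₁ := fun h => hvU ⟨B₁, hB₁, h⟩
      exact hne (eq_of_two_neighbours (hblk B₁ hB₁).1 hvB h1 h2 hw₁.2 hw₂.2)
  have hiter : ∀ j, ∀ v ∈ (step θ)^[j] A, v ∈ U := by
    intro j
    induction j with
    | zero =>
      intro v hv
      obtain ⟨B, hB, hvB⟩ := hcov v hv
      exact ⟨B, hB, mem_cubeOf hvB⟩
    | succ j ih =>
      intro v hv
      rw [Function.iterate_succ_apply'] at hv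
      exact hstep _ ih v hv
  by_contra hcon
  push Not at hcon
  have hall : ∀ v, v ∈ U := by
    intro v
    obtain ⟨j, hj⟩ := hcon v
    exact hiter j v hj
  -- pick a block
  obtain ⟨B, hB, -⟩ := hall (fun _ => ⟨0, by omega⟩)
  obtain ⟨⟨x, hx⟩, -, hBK, hBf⟩ := hblk B hB
  have hfd : (freeSet B).card < d := by omega
  have : ∃ k, k ∉ freeSet B := by
    by_contra hcon
    push Not at hcon
    have : freeSet B = univ := by ext k; simp [hcon k]
    rw [this] at hfd
    simp at hfd
  obtain ⟨k, hk⟩ := this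
  have : ∃ z : Fin n, z ≠ x k := by
    haveI : Nontrivial (Fin n) := Fin.nontrivial_iff_two_le.2 hn
    exact exists_ne (x k)
  obtain ⟨z, hz⟩ := this
  have hy : Function.update x k z ∉ cubeOf B := by
    intro h
    have := h k hk x hx
    simp at this
    exact hz this
  obtain ⟨C, hC, hyC⟩ := hall (Function.update x k z)
  have hBC : B ≠ C := by
    rintro rfl
    exact hy hyC
  have h3 := hsep B hB C hC hBC x (mem_cubeOf hx) _ hyC
  have h1 := hammingDist_update_self x k (y := z) (Ne.symm hz)
  omega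

end Pool.Agent.HammingTorus
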