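import Mathlib
import Pool.Agent.Lib.MP_af82af_pr.Growth
import Pool.Agent.Lib.MP_af82af_pr.Indep

/-!
# Threshold three: above the critical exponent everything opens
-/

open Finset

namespace Pool.Agent.HammingTorus

variable {n d : ℕ}

open scoped Classical

lemma prob_or_le {α : Type*} [Fintype α] {p : ℝ} (h0 : 0 ≤ p) (h1 : p ≤ 1)
    (E F : Finset α → Prop) : prob p (fun A => E A ∨ F A) ≤ prob p E + prob p F := by
  rw [prob_eq_sum, prob_eq_sum, prob_eq_sum, ← Finset.sum_add_distrib]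
  refine Finset.sum_le_sum (fun A _ => ?_)
  have := weight_nonneg h0 h1 A
  by_cases hE : E A <;> by_cases hF : F A <;> simp [hE, hF, this]

lemma prob_exists_le {α ι : Type*} [Fintype α] {p : ℝ} (h0 : 0 ≤ p) (h1 : p ≤ 1) (s : Finset ι)
    (E : ι → Finset α → Prop) : prob p (fun A => ∃ i ∈ s, E i A) ≤ ∑ i ∈ s, prob p (E i) := by
  induction s using Finset.induction_on with
  | empty =>
    simp [prob]
  | insert a s ha ih =>
    rw [sum_insert ha]
    have : (fun A => ∃ i ∈ insert a s, E i A) = (fun A => E a A ∨ ∃ i ∈ s, E i A) := by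
      funext A
      simp
    rw [this]
    exact (prob_or_le h0 h1 _ _).trans (by linarith)

/-- the `j`-th block of `n / 4` consecutive indices -/
def blk (n j : ℕ) : Finset (Fin n) :=
  univ.filter (fun z => j * (n / 4) ≤ z.val ∧ z.val < (j + 1) * (n / 4))

lemma card_blk {j : ℕ} (hj : j < 4) : (blk n j).card = n / 4 := by
  have h4 : 4 * (n / 4) ≤ n := Nat.mul_div_le n 4
  have hb : (j + 1) * (n / 4) ≤ n := by
    calc (j + 1) * (n / 4) ≤ 4 * (n / 4) := Nat.mul_le_mul_right _ (by omega)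
      _ ≤ n := h4
  have : (blk n j).card = (Finset.Ico (j * (n / 4)) ((j + 1) * (n / 4))).card := by
    refine Finset.card_bij (fun z _ => z.val) ?_ ?_ ?_
    · intro z hz
      unfold blk at hz
      rw [mem_filter] at hz
      rw [Finset.mem_Ico]
      exact hz.2
    · intro z _ z' _ h
      exact Fin.ext h
    · intro m hm
      rw [Finset.mem_Ico] at hm
      refine ⟨⟨m, by omega⟩, ?_, rfl⟩
      unfold blk
      rw [mem_filter]
      exact ⟨mem_univ _, hm⟩
  rw [this, Nat.card_Ico]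
  have : (j + 1) * (n / 4) = j * (n / 4) + n / 4 := by ring
  omega

lemma blk_ne {i j : ℕ} (hij : i < j) {z w : Fin n} (hz : z ∈ blk n i) (hw : w ∈ blk n j) :
    z ≠ w := by
  unfold blk at hz hw
  rw [mem_filter] at hz hw
  intro h
  subst h
  have : (i + 1) * (n / 4) ≤ j * (n / 4) := Nat.mul_le_mul_right _ hij
  omega

/-- a piece of a row of the plane indexed by `b` -/
noncomputable def rowPiece (b : Fin (d - 2) → Fin n) (r : Fin n) (j : ℕ) : Finset (Site n d) :=
  (blk n j).image (fun c => pt b r c)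

/-- a rectangle in the plane indexed by `b` -/
noncomputable def rect (b : Fin (d - 2) → Fin n) (i j : ℕ) : Finset (Site n d) :=
  (blk n i ×ˢ blk n j).image (fun q => pt b q.1 q.2)

lemma card_rowPiece (hd : 2 ≤ d) (b : Fin (d - 2) → Fin n) (r : Fin n) {j : ℕ} (hj : j < 4) :
    (rowPiece (d := d) b r j).card = n / 4 := by
  unfold rowPiece
  rw [card_image_of_injective, card_blk hj]
  intro c c' h
  exact (pt_inj hd h).2.2

lemma card_rect (hd : 2 ≤ d) (b : Fin (d - 2) → Fin n) {i j : ℕ} (hi : i < 4) (hj : j < 4) :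
    (rect (d := d) b i j).card = (n / 4) ^ 2 := by
  unfold rect
  rw [card_image_of_injective, card_product, card_blk hi, card_blk hj, sq]
  rintro ⟨r, c⟩ ⟨r', c'⟩ h
  obtain ⟨-, e1, e2⟩ := pt_inj hd h
  simp only at e1 e2
  rw [e1, e2]

/-- the event that `R` contains an open site -/
def Meets (R : Finset (Site n d)) (A : Finset (Site n d)) : Prop := ∃ x ∈ R, x ∈ A

lemma dependsOn_meets (R : Finset (Site n d)) : DependsOn (Meets R) R :=
  dependsOn_exists R (fun x A => x ∈ A) R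
    (fun x hx => (dependsOn_mem x).mono (singleton_subset_iff.2 hx))

/-- two open sites in two fixed rectangles in general position -/
def G2 (b : Fin (d - 2) → Fin n) (A : Finset (Site n d)) : Prop :=
  Meets (rect b 0 0) A ∧ Meets (rect b 1 1) A

/-- four open sites in a suitable position -/
def G4 (b : Fin (d - 2) → Fin n) (A : Finset (Site n d)) : Prop :=
  (∃ r ∈ blk n 0, Meets (rowPiece b r 0) A ∧ Meets (rowPiece b r 1) A) ∧
    (Meets (rect b 1 2) A ∧ Meets (rect b 2 3) A)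

/-- the sites of the plane indexed by `b` -/
noncomputable def planeSites (b : Fin (d - 2) → Fin n) : Finset (Site n d) :=
  univ.filter (fun x => ∀ k : Fin (d - 2), x ⟨k.val + 2, by omega⟩ = b k)

lemma pt_mem_planeSites (b : Fin (d - 2) → Fin n) (r c : Fin n) :
    pt b r c ∈ planeSites (d := d) b := by
  unfold planeSites
  rw [mem_filter]
  exact ⟨mem_univ _, fun k => pt_two b r c k⟩

lemma rect_subset (b : Fin (d - 2) → Fin n) (i j : ℕ) : rect (d := d) b i j ⊆ planeSites b := by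
  intro x hx
  unfold rect at hx
  rw [mem_image] at hx
  obtain ⟨q, _, rfl⟩ := hx
  exact pt_mem_planeSites _ _ _

lemma rowPiece_subset (b : Fin (d - 2) → Fin n) (r : Fin n) (j : ℕ) :
    rowPiece (d := d) b r j ⊆ planeSites b := by
  intro x hx
  unfold rowPiece at hx
  rw [mem_image] at hx
  obtain ⟨q, _, rfl⟩ := hx
  exact pt_mem_planeSites _ _ _

lemma planeSites_disjoint (s : Set (Fin (d - 2) → Fin n)) :
    s.PairwiseDisjoint (planeSites (n := n) (d := d)) := by
  intro b _ b' _ hbb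
  rw [Function.onFun, Finset.disjoint_left]
  intro x hx hx'
  apply hbb
  unfold planeSites at hx hx'
  rw [mem_filter] at hx hx'
  funext k
  rw [← hx.2 k, ← hx'.2 k]

lemma rect_disjoint (hd : 2 ≤ d) (b : Fin (d - 2) → Fin n) {i i' j j' : ℕ} (h : i < i') :
    Disjoint (rect (d := d) b i j) (rect b i' j') := by
  rw [Finset.disjoint_left]
  intro x hx hx'
  unfold rect at hx hx'
  rw [mem_image] at hx hx'
  obtain ⟨⟨r, c⟩, hq, rfl⟩ := hx
  obtain ⟨⟨r', c'⟩, hq', he⟩ := hx'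
  rw [mem_product] at hq hq'
  obtain ⟨-, e1, -⟩ := pt_inj hd he
  exact blk_ne h hq.1 hq'.1 e1.symm

/-- the sites used by the row event -/
noncomputable def rowSites (b : Fin (d - 2) → Fin n) (r : Fin n) : Finset (Site n d) :=
  rowPiece b r 0 ∪ rowPiece b r 1

lemma mem_rowSites {b : Fin (d - 2) → Fin n} {r : Fin n} {x : Site n d}
    (hx : x ∈ rowSites b r) : ∃ c, x = pt b r c := by
  unfold rowSites rowPiece at hx
  rw [mem_union, mem_image, mem_image] at hx
  rcases hx with ⟨c, _, rfl⟩ | ⟨c, _, rfl⟩ <;> exact ⟨c, rfl⟩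

lemma rowPiece_disjoint (hd : 2 ≤ d) (b : Fin (d - 2) → Fin n) (r : Fin n) :
    Disjoint (rowPiece (d := d) b r 0) (rowPiece b r 1) := by
  rw [Finset.disjoint_left]
  intro x hx hx'
  unfold rowPiece at hx hx'
  rw [mem_image] at hx hx'
  obtain ⟨c, hc, rfl⟩ := hx
  obtain ⟨c', hc', he⟩ := hx'
  obtain ⟨-, -, e1⟩ := pt_inj hd he
  exact blk_ne (by norm_num : 0 < 1) hc hc' e1.symm

lemma rowSites_disjoint (hd : 2 ≤ d) (b : Fin (d - 2) → Fin n) (s : Set (Fin n)) :
    s.PairwiseDisjoint (rowSites (d := d) b) := by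
  intro r _ r' _ hrr
  rw [Function.onFun, Finset.disjoint_left]
  intro x hx hx'
  obtain ⟨c, rfl⟩ := mem_rowSites hx
  obtain ⟨c', he⟩ := mem_rowSites hx'
  exact hrr (pt_inj hd he).2.1

/-- the row event -/
def RowEv (b : Fin (d - 2) → Fin n) (r : Fin n) (A : Finset (Site n d)) : Prop :=
  Meets (rowPiece b r 0) A ∧ Meets (rowPiece b r 1) A

lemma dependsOn_rowEv (b : Fin (d - 2) → Fin n) (r : Fin n) :
    DependsOn (RowEv (d := d) b r) (rowSites b r) :=
  (dependsOn_meets _).and (dependsOn_meets _) subset_union_left subset_union_right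

lemma rowSites_subset (b : Fin (d - 2) → Fin n) (r : Fin n) :
    rowSites (d := d) b r ⊆ planeSites b := by
  intro x hx
  obtain ⟨c, rfl⟩ := mem_rowSites hx
  exact pt_mem_planeSites _ _ _

lemma dependsOn_G2 (b : Fin (d - 2) → Fin n) : DependsOn (G2 (d := d) b) (planeSites b) :=
  (dependsOn_meets _).and (dependsOn_meets _) (rect_subset b 0 0) (rect_subset b 1 1)

lemma dependsOn_G4 (b : Fin (d - 2) → Fin n) : DependsOn (G4 (d := d) b) (planeSites b) :=
  (dependsOn_exists (blk n 0) (RowEv b) (planeSites b)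
    (fun r _ => (dependsOn_rowEv b r).mono (rowSites_subset b r))).and
    ((dependsOn_meets (rect b 1 2)).and (dependsOn_meets (rect b 2 3)) (rect_subset b 1 2)
      (rect_subset b 2 3)) (Finset.Subset.refl _) (Finset.Subset.refl _)

/-- the part of a plane below the first block -/
noncomputable def lowSites (hd : 2 ≤ d) (b : Fin (d - 2) → Fin n) : Finset (Site n d) :=
  (planeSites b).filter (fun x => x ⟨0, by omega⟩ ∈ blk n 0)

/-- the part of a plane above the first block -/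
noncomputable def highSites (hd : 2 ≤ d) (b : Fin (d - 2) → Fin n) : Finset (Site n d) :=
  (planeSites b).filter (fun x => ¬ x ⟨0, by omega⟩ ∈ blk n 0)

lemma low_high_disjoint (hd : 2 ≤ d) (b : Fin (d - 2) → Fin n) :
    Disjoint (lowSites hd b) (highSites hd b) :=
  Finset.disjoint_filter_filter_not _ _ _

lemma rowSites_subset_low (hd : 2 ≤ d) (b : Fin (d - 2) → Fin n) {r : Fin n}
    (hr : r ∈ blk n 0) : rowSites (d := d) b r ⊆ lowSites hd b := by
  intro x hx
  obtain ⟨c, rfl⟩ := mem_rowSites hx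
  unfold lowSites
  rw [mem_filter]
  refine ⟨pt_mem_planeSites _ _ _, ?_⟩
  rw [pt_zero hd]
  exact hr

lemma rect_subset_high (hd : 2 ≤ d) (b : Fin (d - 2) → Fin n) {i : ℕ} (j : ℕ) (hi : 0 < i) :
    rect (d := d) b i j ⊆ highSites hd b := by
  intro x hx
  have hx' := rect_subset b i j hx
  unfold rect at hx
  rw [mem_image] at hx
  obtain ⟨q, hq, rfl⟩ := hx
  rw [mem_product] at hq
  unfold highSites
  rw [mem_filter]
  refine ⟨hx', ?_⟩
  rw [pt_zero hd]
  intro hc
  exact blk_ne hi hc hq.1 rfl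

lemma twoSeeds_of_G2 {b : Fin (d - 2) → Fin n} {A : Finset (Site n d)} (h : G2 b A) :
    TwoSeeds A b := by
  obtain ⟨⟨x, hx, hxA⟩, ⟨y, hy, hyA⟩⟩ := h
  unfold rect at hx hy
  rw [mem_image] at hx hy
  obtain ⟨⟨r, c⟩, hq, rfl⟩ := hx
  obtain ⟨⟨r', c'⟩, hq', rfl⟩ := hy
  rw [mem_product] at hq hq'
  exact ⟨r, r', c, c', blk_ne (by norm_num) hq.1 hq'.1, blk_ne (by norm_num) hq.2 hq'.2,
    hxA, hyA⟩

lemma planeOpen_of_G4 (hd : 2 ≤ d) {b : Fin (d - 2) → Fin n} {A : Finset (Site n d)}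
    (h : G4 b A) : PlaneOpen A b := by
  obtain ⟨⟨r, hr, ⟨x, hx, hxA⟩, ⟨y, hy, hyA⟩⟩, ⟨z, hz, hzA⟩, ⟨w, hw, hwA⟩⟩ := h
  unfold rowPiece at hx hy
  unfold rect at hz hw
  rw [mem_image] at hx hy hz hw
  obtain ⟨c₁, hc₁, rfl⟩ := hx
  obtain ⟨c₂, hc₂, rfl⟩ := hy
  obtain ⟨⟨r₂, c₃⟩, hq, rfl⟩ := hz
  obtain ⟨⟨r₃, c₄⟩, hq', rfl⟩ := hw
  rw [mem_product] at hq hq'
  exact planeOpen_of_four hd A b (r₁ := r) (r₂ := r₂) (r₃ := r₃) (c₁ := c₁) (c₂ := c₂)
    (c₃ := c₃) (c₄ := c₄) (blk_ne (by norm_num) hr hq.1) (blk_ne (by norm_num) hr hq'.1)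
    (blk_ne (by norm_num) hq.1 hq'.1) (blk_ne (by norm_num) hc₁ hc₂)
    (blk_ne (by norm_num) hc₁ hq.2) (blk_ne (by norm_num) hc₂ hq.2)
    (blk_ne (by norm_num) hq.2 hq'.2) hxA hyA hzA hwA

lemma prob_meets' (p : ℝ) (R : Finset (Site n d)) :
    prob p (Meets R) = 1 - (1 - p) ^ R.card := prob_meets p R

/-- lower bound for the probability of `G2` -/
lemma prob_G2_ge (hd : 2 ≤ d) (b : Fin (d - 2) → Fin n) {p : ℝ} (h0 : 0 ≤ p) (h1 : p ≤ 1)
    (hp : p * ((n / 4 : ℕ) : ℝ) ^ 2 ≤ 1) :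
    (p * ((n / 4 : ℕ) : ℝ) ^ 2 / 2) ^ 2 ≤ prob p (G2 (d := d) b) := by
  have e : prob p (G2 (d := d) b) = prob p (Meets (rect (d := d) b 0 0)) *
      prob p (Meets (rect (d := d) b 1 1)) :=
    prob_and p (dependsOn_meets _) (dependsOn_meets _) (rect_disjoint hd b (by norm_num))
  rw [e, prob_meets', prob_meets', card_rect hd b (by norm_num) (by norm_num),
    card_rect hd b (by norm_num) (by norm_num), sq]
  have h := one_sub_pow_ge h0 h1 ((n / 4) ^ 2) (by push_cast; exact hp)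
  push_cast at h
  have h2 : 0 ≤ p * ((n / 4 : ℕ) : ℝ) ^ 2 / 2 := by positivity
  exact mul_le_mul h h h2 (h2.trans h)

/-- lower bound for the probability of `G4` -/
lemma prob_G4_ge (hd : 2 ≤ d) (hn : 4 ≤ n) (b : Fin (d - 2) → Fin n) {p : ℝ} (h0 : 0 ≤ p)
    (h1 : p ≤ 1) (hp : p * ((n / 4 : ℕ) : ℝ) ^ 2 ≤ 1) :
    p ^ 4 * ((n / 4 : ℕ) : ℝ) ^ 7 / 32 ≤ prob p (G4 (d := d) b) := by
  set h : ℝ := ((n / 4 : ℕ) : ℝ) with hh
  have hh1 : 1 ≤ h := by
    rw [hh]
    have : 1 ≤ n / 4 := by omega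
    exact_mod_cast this
  have hph : p * h ≤ 1 := by nlinarith
  -- one rectangle
  have hrect : ∀ i j, i < 4 → j < 4 → p * h ^ 2 / 2 ≤ prob p (Meets (rect (d := d) b i j)) := by
    intro i j hi hj
    rw [prob_meets', card_rect hd b hi hj]
    have := one_sub_pow_ge h0 h1 ((n / 4) ^ 2) (by push_cast; exact hp)
    push_cast at this
    exact this
  -- one row piece
  have hrowl : ∀ r j, j < 4 → p * h / 2 ≤ prob p (Meets (rowPiece (d := d) b r j)) := by
    intro r j hj
    rw [prob_meets', card_rowPiece hd b r hj]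
    exact one_sub_pow_ge h0 h1 (n / 4) hph
  have hrowu : ∀ r j, j < 4 → prob p (Meets (rowPiece (d := d) b r j)) ≤ p * h := by
    intro r j hj
    rw [prob_meets', card_rowPiece hd b r hj]
    have := one_add_mul_le_pow (a := -p) (by linarith) (n / 4)
    have e : (1 + -p) = 1 - p := by ring
    rw [e] at this
    nlinarith
  -- one row
  have hrow : ∀ r, prob p (RowEv (d := d) b r) = prob p (Meets (rowPiece (d := d) b r 0)) *
      prob p (Meets (rowPiece (d := d) b r 1)) := fun r =>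
    prob_and p (dependsOn_meets _) (dependsOn_meets _) (rowPiece_disjoint hd b r)
  have hrow1 : ∀ r, (p * h / 2) ^ 2 ≤ prob p (RowEv (d := d) b r) := by
    intro r
    rw [hrow r, sq]
    have hnn : 0 ≤ p * h / 2 := by positivity
    exact mul_le_mul (hrowl r 0 (by norm_num)) (hrowl r 1 (by norm_num)) hnn
      (hnn.trans (hrowl r 0 (by norm_num)))
  -- some row
  have hsome : p ^ 2 * h ^ 3 / 8 ≤ prob p (fun A => ∃ r ∈ blk n 0, RowEv (d := d) b r A) := by
    rw [prob_exists p (blk n 0) (RowEv b) (rowSites b) (fun r _ => dependsOn_rowEv b r)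
      (rowSites_disjoint hd b _)]
    have hq0 : 0 ≤ (p * h / 2) ^ 2 := by positivity
    have hq1 : (p * h / 2) ^ 2 ≤ 1 := by
      have : p * h / 2 ≤ 1 := by linarith
      have h2 : 0 ≤ p * h / 2 := by positivity
      nlinarith
    have hle : ∏ r ∈ blk n 0, (1 - prob p (RowEv (d := d) b r)) ≤ (1 - (p * h / 2) ^ 2) ^ (n / 4) := by
      calc ∏ r ∈ blk n 0, (1 - prob p (RowEv (d := d) b r))
          ≤ ∏ r ∈ blk n 0, (1 - (p * h / 2) ^ 2) := by
            refine Finset.prod_le_prod (fun r _ => ?_) (fun r _ => ?_)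
            · have := prob_le_one h0 h1 (RowEv (d := d) b r)
              linarith
            · have := hrow1 r
              linarith
        _ = (1 - (p * h / 2) ^ 2) ^ (n / 4) := by
            rw [prod_const, card_blk (by norm_num)]
    have hsmall : (p * h / 2) ^ 2 * ((n / 4 : ℕ) : ℝ) ≤ 1 := by
      rw [← hh]
      have e1 : (p * h / 2) ^ 2 * h = (p * h ^ 2) * (p * h) / 4 := by ring
      rw [e1]
      have : 0 ≤ p * h := by positivity
      have : 0 ≤ p * h ^ 2 := by positivity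
      nlinarith
    have := one_sub_pow_ge hq0 hq1 (n / 4) hsmall
    rw [← hh] at this
    have e2 : p ^ 2 * h ^ 3 / 8 = (p * h / 2) ^ 2 * h / 2 := by ring
    rw [e2]
    linarith
  -- independence of the three parts
  have e1 : prob p (G4 (d := d) b) = prob p (fun A => ∃ r ∈ blk n 0, RowEv (d := d) b r A) *
      (prob p (Meets (rect (d := d) b 1 2)) * prob p (Meets (rect (d := d) b 2 3))) := by
    have hx : prob p (fun A => Meets (rect (d := d) b 1 2) A ∧ Meets (rect (d := d) b 2 3) A) =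
        prob p (Meets (rect (d := d) b 1 2)) * prob p (Meets (rect (d := d) b 2 3)) :=
      prob_and p (dependsOn_meets _) (dependsOn_meets _) (rect_disjoint hd b (by norm_num))
    rw [← hx]
    exact prob_and p (dependsOn_exists (blk n 0) (RowEv b) (lowSites hd b)
      (fun r hr => (dependsOn_rowEv b r).mono (rowSites_subset_low hd b hr)))
      ((dependsOn_meets (rect b 1 2)).and (dependsOn_meets (rect b 2 3))
        (rect_subset_high hd b 2 (by norm_num)) (rect_subset_high hd b 3 (by norm_num)))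
      (low_high_disjoint hd b)
  rw [e1]
  have r1 := hrect 1 2 (by norm_num) (by norm_num)
  have r2 := hrect 2 3 (by norm_num) (by norm_num)
  have hnn : 0 ≤ p * h ^ 2 / 2 := by positivity
  have hnn3 : 0 ≤ p ^ 2 * h ^ 3 / 8 := by positivity
  calc p ^ 4 * h ^ 7 / 32 = (p ^ 2 * h ^ 3 / 8) * ((p * h ^ 2 / 2) * (p * h ^ 2 / 2)) := by ring
    _ ≤ _ := by
        refine mul_le_mul hsome (mul_le_mul r1 r2 hnn (hnn.trans r1)) (by positivity)
          (hnn3.trans hsome)

/-- an open plane is a two-dimensional subgraph -/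
lemma opensSubgraph_of_planeOpen (hd : 2 ≤ d) (hn : 1 ≤ n) {b : Fin (d - 2) → Fin n}
    {A : Finset (Site n d)} (h : PlaneOpen A b) : OpensSubgraph 3 2 A := by
  refine ⟨{⟨0, by omega⟩, ⟨1, by omega⟩}, pt b ⟨0, by omega⟩ ⟨0, by omega⟩, ?_, ?_⟩
  · rw [card_pair]
    simp
  · intro x hx
    have e : (fun k : Fin (d - 2) => x ⟨k.val + 2, by omega⟩) = b := by
      funext k
      rw [hx ⟨k.val + 2, by omega⟩ (by simp [Fin.ext_iff]), pt_two]
    rw [eq_pt hd x, e]
    exact h _ _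

/-- the probability that no plane has a good set of four open sites -/
lemma prob_no_G4_le (hd : 2 ≤ d) (hn : 4 ≤ n) {p : ℝ} (h0 : 0 ≤ p) (h1 : p ≤ 1)
    (hp : p * ((n / 4 : ℕ) : ℝ) ^ 2 ≤ 1) :
    prob p (fun A : Finset (Site n d) => ∀ b ∈ (univ : Finset (Fin (d - 2) → Fin n)),
      ¬ G4 b A) ≤
      Real.exp (-(p ^ 4 * ((n / 4 : ℕ) : ℝ) ^ 7 / 32 * ((n ^ (d - 2) : ℕ) : ℝ))) := by
  set h : ℝ := ((n / 4 : ℕ) : ℝ) with hh
  rw [prob_forall_not p univ (fun b => G4 b) planeSites (fun b _ => dependsOn_G4 b)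
    (planeSites_disjoint _)]
  have hle1 : p ^ 4 * h ^ 7 / 32 ≤ 1 := by
    have a := prob_G4_ge hd hn (fun _ => ⟨0, by omega⟩) h0 h1 hp (d := d)
    exact a.trans (prob_le_one h0 h1 _)
  calc ∏ b : Fin (d - 2) → Fin n, (1 - prob p (G4 (d := d) b))
      ≤ ∏ b : Fin (d - 2) → Fin n, (1 - p ^ 4 * h ^ 7 / 32) := by
        refine Finset.prod_le_prod (fun b _ => ?_) (fun b _ => ?_)
        · have := prob_le_one h0 h1 (G4 (d := d) b)
          linarith
        · have := prob_G4_ge hd hn b h0 h1 hp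
          linarith
    _ = (1 - p ^ 4 * h ^ 7 / 32) ^ (n ^ (d - 2)) := by
        rw [prod_const]
        simp
    _ ≤ _ := one_sub_pow_le_exp hle1 _

/-- the probability that something stays closed -/
lemma prob_not_all_open_le (hd : 2 ≤ d) (hn : 4 ≤ n) {p : ℝ} (h0 : 0 ≤ p) (h1 : p ≤ 1)
    (hp : p * ((n / 4 : ℕ) : ℝ) ^ 2 ≤ 1) :
    prob p (fun A : Finset (Site n d) => ¬ ∀ v, OpenAtEnd 3 A v) ≤
      Real.exp (-(p ^ 4 * ((n / 4 : ℕ) : ℝ) ^ 7 / 32 * ((n ^ (d - 2) : ℕ) : ℝ))) +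
      (n:ℝ) ^ (d - 2) * (((d - 2 : ℕ) : ℝ) * (3 *
        Real.exp (-((p * ((n / 4 : ℕ) : ℝ) ^ 2 / 2) ^ 2 * ((n / 4 : ℕ) : ℝ))))) := by
  set h : ℝ := ((n / 4 : ℕ) : ℝ) with hh
  -- the two bad events
  set B1 : Finset (Site n d) → Prop := fun A => ∀ b ∈ (univ : Finset (Fin (d - 2) → Fin n)),
    ¬ G4 b A with hB1
  set B2 : ((Fin (d - 2) → Fin n) × Fin (d - 2)) × ℕ → Finset (Site n d) → Prop :=
    fun q A => ∀ z ∈ blk n q.2, ¬ G2 (Function.update q.1.1 q.1.2 z) A with hB2
  set Q : Finset (((Fin (d - 2) → Fin n) × Fin (d - 2)) × ℕ) :=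
    (univ : Finset ((Fin (d - 2) → Fin n) × Fin (d - 2))) ×ˢ range 3 with hQ
  have hsub : ∀ A : Finset (Site n d), (¬ ∀ v, OpenAtEnd 3 A v) → (B1 A ∨ ∃ q ∈ Q, B2 q A) := by
    intro A hA
    by_contra hcon
    push Not at hcon
    obtain ⟨hc1, hc2⟩ := hcon
    rw [hB1] at hc1
    push Not at hc1
    obtain ⟨b₀, -, hb₀⟩ := hc1
    apply hA
    refine all_open hd A b₀ (planeOpen_of_G4 hd hb₀) ?_
    intro b k
    have get : ∀ j, j < 3 → ∃ z ∈ blk n j, G2 (Function.update b k z) A := by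
      intro j hj
      have := hc2 ((b, k), j) (by rw [hQ, mem_product]; exact ⟨mem_univ _, mem_range.2 hj⟩)
      rw [hB2] at this
      push Not at this
      exact this
    obtain ⟨z0, m0, g0⟩ := get 0 (by norm_num)
    obtain ⟨z1, m1, g1⟩ := get 1 (by norm_num)
    obtain ⟨z2, m2, g2⟩ := get 2 (by norm_num)
    exact ⟨z0, z1, z2, blk_ne (by norm_num) m0 m1, blk_ne (by norm_num) m0 m2,
      blk_ne (by norm_num) m1 m2, twoSeeds_of_G2 g0, twoSeeds_of_G2 g1, twoSeeds_of_G2 g2⟩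
  have hP1 : prob p B1 ≤ Real.exp (-(p ^ 4 * h ^ 7 / 32 * ((n ^ (d - 2) : ℕ) : ℝ))) :=
    prob_no_G4_le hd hn h0 h1 hp
  have hP2 : ∀ q ∈ Q, prob p (B2 q) ≤
      Real.exp (-((p * h ^ 2 / 2) ^ 2 * h)) := by
    intro q hq
    rw [hQ, mem_product, mem_range] at hq
    rw [hB2]
    simp only
    rw [prob_forall_not p (blk n q.2) (fun z => G2 (Function.update q.1.1 q.1.2 z))
      (fun z => planeSites (Function.update q.1.1 q.1.2 z)) (fun z _ => dependsOn_G2 _)]
    · have hle1 : (p * h ^ 2 / 2) ^ 2 ≤ 1 := by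
        have a := prob_G2_ge hd (fun _ => ⟨0, by omega⟩) h0 h1 hp (d := d) (n := n)
        exact a.trans (prob_le_one h0 h1 _)
      calc ∏ z ∈ blk n q.2, (1 - prob p (G2 (d := d) (Function.update q.1.1 q.1.2 z)))
          ≤ ∏ z ∈ blk n q.2, (1 - (p * h ^ 2 / 2) ^ 2) := by
            refine Finset.prod_le_prod (fun z _ => ?_) (fun z _ => ?_)
            · have := prob_le_one h0 h1 (G2 (d := d) (Function.update q.1.1 q.1.2 z))
              linarith
            · have := prob_G2_ge hd (Function.update q.1.1 q.1.2 z) h0 h1 hp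
              linarith
        _ = (1 - (p * h ^ 2 / 2) ^ 2) ^ (n / 4) := by
            rw [prod_const, card_blk (by omega)]
        _ ≤ _ := one_sub_pow_le_exp hle1 _
    · intro z _ z' _ hzz
      refine planeSites_disjoint Set.univ (Set.mem_univ _) (Set.mem_univ _) ?_
      intro he
      apply hzz
      have := congrFun he q.1.2
      simpa using this
  calc prob p (fun A : Finset (Site n d) => ¬ ∀ v, OpenAtEnd 3 A v)
      ≤ prob p (fun A => B1 A ∨ ∃ q ∈ Q, B2 q A) := prob_mono h0 h1 _ _ hsub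
    _ ≤ prob p B1 + prob p (fun A => ∃ q ∈ Q, B2 q A) := prob_or_le h0 h1 _ _
    _ ≤ prob p B1 + ∑ q ∈ Q, prob p (B2 q) := by
        gcongr
        exact prob_exists_le h0 h1 Q B2
    _ ≤ Real.exp (-(p ^ 4 * h ^ 7 / 32 * ((n ^ (d - 2) : ℕ) : ℝ))) +
        ∑ q ∈ Q, Real.exp (-((p * h ^ 2 / 2) ^ 2 * h)) := by
        gcongr with q hq
        exact hP2 q hq
    _ = _ := by
        rw [sum_const, nsmul_eq_mul, hQ, card_product, card_range, card_univ,
          Fintype.card_prod]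
        simp only [Fintype.card_pi, Fintype.card_fin, prod_const, card_univ]
        push_cast
        ring

end Pool.Agent.HammingTorus
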